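import Mathlib

set_option autoImplicit false

namespace Pool.Agent.MP_291637_al

/-- Conjugation by an element of a coset of the centralizer. -/
theorem conj_out {G : Type} [Group G] (a g : G) :
    (Quotient.out (QuotientGroup.mk g : G ⧸ Subgroup.centralizer {a})) * a *
      (Quotient.out (QuotientGroup.mk g : G ⧸ Subgroup.centralizer {a}))⁻¹ = g * a * g⁻¹ := by
  obtain ⟨h, hh⟩ := QuotientGroup.mk_out_eq_mul (Subgroup.centralizer {a}) g
  have h1 : (h : G) * a = a * h := by
    have := h.2
    rw [Subgroup.mem_centralizer_singleton_iff] at this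
    exact this
  have hh' : (Quotient.out (QuotientGroup.mk g : G ⧸ Subgroup.centralizer {a})) = g * h := hh
  rw [hh', mul_inv_rev]
  calc g * h * a * ((h : G)⁻¹ * g⁻¹) = g * (h * a) * (h : G)⁻¹ * g⁻¹ := by group
    _ = g * (a * h) * (h : G)⁻¹ * g⁻¹ := by rw [h1]
    _ = g * a * g⁻¹ := by group

/-- **B. H. Neumann**: a group whose conjugacy classes have bounded size has finitely many
commutators. -/
theorem finite_commutatorSet_of_bounded {G : Type} [Group G] (M : ℕ)
    (hM : ∀ x : G, (Subgroup.centralizer {x}).FiniteIndex ∧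
      (Subgroup.centralizer {x}).index ≤ M) :
    Finite (commutatorSet G) := by
  classical
  have hfi : ∀ x : G, (Subgroup.centralizer {x}).FiniteIndex := fun x => (hM x).1
  -- an element with maximal class
  obtain ⟨a, ha⟩ : ∃ a : G, ∀ b : G,
      (Subgroup.centralizer {b}).index ≤ (Subgroup.centralizer {a}).index := by
    by_contra hcon
    push Not at hcon
    have : ∀ n : ℕ, ∃ b : G, n ≤ (Subgroup.centralizer {b}).index := by
      intro n
      induction n with
      | zero => exact ⟨1, Nat.zero_le _⟩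
      | succ n ih =>
        obtain ⟨b, hb⟩ := ih
        obtain ⟨c, hc⟩ := hcon b
        exact ⟨c, by omega⟩
    obtain ⟨b, hb⟩ := this (M + 1)
    have := (hM b).2
    omega
  let x : G ⧸ Subgroup.centralizer {a} → G := Quotient.out
  let C : Subgroup G := ⨅ i, Subgroup.centralizer {x i}
  have : Finite (G ⧸ Subgroup.centralizer {a}) := by
    have := hfi a
    infer_instance
  have hC : C.FiniteIndex := Subgroup.finiteIndex_iInf (fun i => hfi (x i))
  have hCx : ∀ c ∈ C, ∀ i, c * x i = x i * c := by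
    intro c hc i
    have := (Subgroup.mem_iInf.1 hc) i
    rw [Subgroup.mem_centralizer_singleton_iff] at this
    exact this
  let D : Set G := Set.range (fun p : (G ⧸ Subgroup.centralizer {a}) ×
    (G ⧸ Subgroup.centralizer {a}) => (x p.1 * a * (x p.1)⁻¹) * (x p.2 * a * (x p.2)⁻¹)⁻¹)
  have hD : D.Finite := Set.finite_range _
  have key : ∀ c ∈ C, ∀ g : G, c⁻¹ * g * c * g⁻¹ ∈ D := by
    intro c hc g
    have := hfi (c * a)
    have : Finite (G ⧸ Subgroup.centralizer {c * a}) := inferInstance
    let φ : G ⧸ Subgroup.centralizer {a} → G ⧸ Subgroup.centralizer {c * a} :=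
      fun i => QuotientGroup.mk (x i)
    have hinj : Function.Injective φ := by
      intro i j hij
      have h1 : (x i)⁻¹ * x j ∈ Subgroup.centralizer {c * a} := QuotientGroup.eq.1 hij
      rw [Subgroup.mem_centralizer_singleton_iff] at h1
      have hi := hCx c hc i
      have hj := hCx c hc j
      have h2 : x i * (c * a) * (x i)⁻¹ = x j * (c * a) * (x j)⁻¹ := by
        calc x i * (c * a) * (x i)⁻¹
            = x i * ((c * a) * ((x i)⁻¹ * x j)) * (x j)⁻¹ := by group
          _ = x i * (((x i)⁻¹ * x j) * (c * a)) * (x j)⁻¹ := by rw [h1]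
          _ = x j * (c * a) * (x j)⁻¹ := by group
      have h3 : x i * a * (x i)⁻¹ = x j * a * (x j)⁻¹ := by
        have h4 : c * (x i * a * (x i)⁻¹) = c * (x j * a * (x j)⁻¹) := by
          calc c * (x i * a * (x i)⁻¹) = (c * x i) * a * (x i)⁻¹ := by group
            _ = x i * (c * a) * (x i)⁻¹ := by rw [hi]; group
            _ = x j * (c * a) * (x j)⁻¹ := h2
            _ = (x j * c) * a * (x j)⁻¹ := by group
            _ = c * (x j * a * (x j)⁻¹) := by rw [← hj]; group
        exact mul_left_cancel h4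
      have h5 : (x i)⁻¹ * x j ∈ Subgroup.centralizer {a} := by
        rw [Subgroup.mem_centralizer_singleton_iff]
        calc (x i)⁻¹ * x j * a = (x i)⁻¹ * (x j * a * (x j)⁻¹) * x j := by group
          _ = (x i)⁻¹ * (x i * a * (x i)⁻¹) * x j := by rw [h3]
          _ = a * ((x i)⁻¹ * x j) := by group
      have h6 : (QuotientGroup.mk (x i) : G ⧸ Subgroup.centralizer {a}) =
        QuotientGroup.mk (x j) := QuotientGroup.eq.2 h5
      have h7 : ∀ i, (QuotientGroup.mk (x i) : G ⧸ Subgroup.centralizer {a}) = i :=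
        fun i => Quotient.out_eq i
      rwa [h7, h7] at h6
    have hcard : Nat.card (G ⧸ Subgroup.centralizer {c * a}) ≤
        Nat.card (G ⧸ Subgroup.centralizer {a}) := ha (c * a)
    have hbij : Function.Bijective φ := by
      rw [Nat.bijective_iff_injective_and_card]
      refine ⟨hinj, le_antisymm (Nat.card_le_card_of_injective φ hinj) hcard⟩
    obtain ⟨i, hi⟩ := hbij.2 (QuotientGroup.mk g)
    have h1 : (x i)⁻¹ * g ∈ Subgroup.centralizer {c * a} := QuotientGroup.eq.1 hi
    rw [Subgroup.mem_centralizer_singleton_iff] at h1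
    have hci := hCx c hc i
    have h2 : g * (c * a) * g⁻¹ = c * (x i * a * (x i)⁻¹) := by
      calc g * (c * a) * g⁻¹ = x i * (((x i)⁻¹ * g) * (c * a)) * g⁻¹ := by group
        _ = x i * ((c * a) * ((x i)⁻¹ * g)) * g⁻¹ := by rw [h1]
        _ = (x i * c) * a * (x i)⁻¹ := by group
        _ = c * (x i * a * (x i)⁻¹) := by rw [← hci]; group
    refine ⟨(i, QuotientGroup.mk g), ?_⟩
    have h3 := conj_out a g
    change (x i * a * (x i)⁻¹) * (x (QuotientGroup.mk g) * a * (x (QuotientGroup.mk g))⁻¹)⁻¹ = _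
    change x (QuotientGroup.mk g) * a * (x (QuotientGroup.mk g))⁻¹ = _ at h3
    rw [h3]
    calc x i * a * (x i)⁻¹ * (g * a * g⁻¹)⁻¹
        = c⁻¹ * (c * (x i * a * (x i)⁻¹)) * (g * a * g⁻¹)⁻¹ := by group
      _ = c⁻¹ * (g * (c * a) * g⁻¹) * (g * a * g⁻¹)⁻¹ := by rw [h2]
      _ = c⁻¹ * g * c * g⁻¹ := by group
  let T : Set G := Set.range (fun j : G ⧸ C => (Quotient.out j : G))
  have hT : T.Finite := by
    have := hC
    have : Finite (G ⧸ C) := inferInstance
    exact Set.finite_range (fun j : G ⧸ C => (Quotient.out j : G))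
  let E : G → Set G := fun t => Set.range (fun j : G ⧸ Subgroup.centralizer {t⁻¹} =>
    Quotient.out j * t⁻¹ * (Quotient.out j)⁻¹)
  have hE : ∀ t, (E t).Finite := by
    intro t
    have := hfi t⁻¹
    have : Finite (G ⧸ Subgroup.centralizer {t⁻¹}) := inferInstance
    exact Set.finite_range _
  have hsub : commutatorSet G ⊆
      ⋃ t ∈ T, Set.image2 (fun d e => t * d * t⁻¹ * (t * e)) D (E t) := by
    rintro _ ⟨y, g, rfl⟩
    rw [Set.mem_iUnion₂]
    obtain ⟨c, hc⟩ := QuotientGroup.mk_out_eq_mul C y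
    set t : G := Quotient.out (QuotientGroup.mk y : G ⧸ C) with ht
    have hc' : t = y * c := hc
    refine ⟨t, ⟨QuotientGroup.mk y, rfl⟩, ?_⟩
    refine ⟨(c : G)⁻¹ * g * c * g⁻¹, key c c.2 g, g * t⁻¹ * g⁻¹, ?_, ?_⟩
    · exact ⟨QuotientGroup.mk g, conj_out t⁻¹ g⟩
    · have hy : y = t * (c : G)⁻¹ := by rw [hc']; group
      rw [commutatorElement_def, hy]
      group
  have hfin : (commutatorSet G).Finite :=
    Set.Finite.subset (Set.Finite.biUnion hT (fun t _ => Set.Finite.image2 _ hD (hE t))) hsub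
  exact hfin.to_subtype

end Pool.Agent.MP_291637_al
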