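import Pool.Agent.Lib.MP_291637_al_BGroups.Basic

set_option autoImplicit false

namespace Pool.Agent.MP_291637_al

variable {V : Type}

/-- The relation `Adj` is a graph with the extension property of the countable random graph. -/
structure IsRandom (Adj : V → V → Prop) : Prop where
  symm : ∀ x y, Adj x y → Adj y x
  irrefl : ∀ x, ¬ Adj x x
  ext : ∀ U W : Finset V, Disjoint U W →
    ∃ z, z ∉ U ∧ z ∉ W ∧ (∀ u ∈ U, Adj z u) ∧ (∀ w ∈ W, ¬ Adj z w)

/-- A finite set of pairs is a partial isomorphism. -/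
def IsPIso (Adj : V → V → Prop) (f : Finset (V × V)) : Prop :=
  ∀ p ∈ f, ∀ q ∈ f, (p.1 = q.1 ↔ p.2 = q.2) ∧ (Adj p.1 q.1 ↔ Adj p.2 q.2)

theorem IsPIso.extend {Adj : V → V → Prop} (hA : IsRandom Adj) {f : Finset (V × V)}
    (hf : IsPIso Adj f) (a : V) :
    ∃ g : Finset (V × V), IsPIso Adj g ∧ f ⊆ g ∧ ∃ b, (a, b) ∈ g := by
  classical
  by_cases h : ∃ b, (a, b) ∈ f
  · exact ⟨f, hf, fun _ h => h, h⟩
  · push Not at h
    have hne : ∀ p ∈ f, p.1 ≠ a := by
      rintro ⟨p1, p2⟩ hp rfl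
      exact h p2 hp
    obtain ⟨b, hbU, hbW, hb1, hb2⟩ := hA.ext ((f.filter (fun p => Adj a p.1)).image Prod.snd)
      ((f.filter (fun p => ¬ Adj a p.1)).image Prod.snd) (by
        rw [Finset.disjoint_left]
        intro x hx hx'
        simp only [Finset.mem_image, Finset.mem_filter] at hx hx'
        obtain ⟨p, ⟨hp, hp1⟩, rfl⟩ := hx
        obtain ⟨q, ⟨hq, hq1⟩, hqp⟩ := hx'
        have := (hf p hp q hq).1.2 hqp.symm
        rw [this] at hp1
        exact hq1 hp1)
    have hbf : ∀ p ∈ f, p.2 ≠ b := by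
      rintro p hp rfl
      by_cases hap : Adj a p.1
      · exact hbU (Finset.mem_image.2 ⟨p, Finset.mem_filter.2 ⟨hp, hap⟩, rfl⟩)
      · exact hbW (Finset.mem_image.2 ⟨p, Finset.mem_filter.2 ⟨hp, hap⟩, rfl⟩)
    have key : ∀ p ∈ f, (Adj a p.1 ↔ Adj b p.2) := by
      intro p hp
      constructor
      · intro hap
        exact hb1 _ (Finset.mem_image.2 ⟨p, Finset.mem_filter.2 ⟨hp, hap⟩, rfl⟩)
      · intro hbp
        by_contra hap
        exact hb2 _ (Finset.mem_image.2 ⟨p, Finset.mem_filter.2 ⟨hp, hap⟩, rfl⟩) hbp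
    refine ⟨insert (a, b) f, ?_, Finset.subset_insert _ _, b, Finset.mem_insert_self _ _⟩
    intro p hp q hq
    rw [Finset.mem_insert] at hp hq
    rcases hp with rfl | hp <;> rcases hq with rfl | hq
    · simp [hA.irrefl]
    · refine ⟨⟨fun h1 => absurd h1.symm (hne q hq), fun h1 => absurd h1.symm (hbf q hq)⟩,
        key q hq⟩
    · refine ⟨⟨fun h1 => absurd h1 (hne p hp), fun h1 => absurd h1 (hbf p hp)⟩, ?_⟩
      constructor
      · intro h1
        exact hA.symm _ _ ((key p hp).1 (hA.symm _ _ h1))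
      · intro h1
        exact hA.symm _ _ ((key p hp).2 (hA.symm _ _ h1))
    · exact hf p hp q hq

theorem IsPIso.swap {Adj : V → V → Prop} {f : Finset (V × V)}
    (hf : IsPIso Adj f) : IsPIso Adj (f.map (Equiv.prodComm V V).toEmbedding) := by
  intro p hp q hq
  rw [Finset.mem_map] at hp hq
  obtain ⟨p, hp, rfl⟩ := hp
  obtain ⟨q, hq, rfl⟩ := hq
  have := hf p hp q hq
  exact ⟨this.1.symm, this.2.symm⟩

theorem IsPIso.extend' {Adj : V → V → Prop} (hA : IsRandom Adj) {f : Finset (V × V)}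
    (hf : IsPIso Adj f) (b : V) :
    ∃ g : Finset (V × V), IsPIso Adj g ∧ f ⊆ g ∧ ∃ a, (a, b) ∈ g := by
  obtain ⟨g, hg, hfg, a, ha⟩ := hf.swap.extend hA b
  refine ⟨g.map (Equiv.prodComm V V).toEmbedding, hg.swap, ?_, a, ?_⟩
  · intro p hp
    rw [Finset.mem_map]
    refine ⟨(p.2, p.1), hfg ?_, rfl⟩
    rw [Finset.mem_map]
    exact ⟨p, hp, rfl⟩
  · rw [Finset.mem_map]
    exact ⟨(b, a), ha, rfl⟩

/-- The poset of partial isomorphisms. -/
def PI (Adj : V → V → Prop) : Type := {f : Finset (V × V) // IsPIso Adj f}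

instance (Adj : V → V → Prop) : Preorder (PI Adj) := Preorder.lift (fun f => f.1)

/-- The cofinal sets of the back-and-forth argument. -/
def cof {Adj : V → V → Prop} (hA : IsRandom Adj) : V ⊕ V → Order.Cofinal (PI Adj)
  | Sum.inl a =>
    { carrier := {f | ∃ b, (a, b) ∈ f.1}
      isCofinal := fun f => by
        obtain ⟨g, hg, hfg, hb⟩ := f.2.extend hA a
        exact ⟨⟨g, hg⟩, hb, hfg⟩ }
  | Sum.inr b =>
    { carrier := {f | ∃ a, (a, b) ∈ f.1}
      isCofinal := fun f => by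
        obtain ⟨g, hg, hfg, hb⟩ := f.2.extend' hA b
        exact ⟨⟨g, hg⟩, hb, hfg⟩ }

/-- Back-and-forth: a finite partial isomorphism extends to an automorphism. -/
theorem IsRandom.exists_perm [Countable V] {Adj : V → V → Prop} (hA : IsRandom Adj)
    {f : Finset (V × V)} (hf : IsPIso Adj f) :
    ∃ σ : Equiv.Perm V, (∀ x y, Adj x y ↔ Adj (σ x) (σ y)) ∧ ∀ p ∈ f, σ p.1 = p.2 := by
  classical
  let _ := Encodable.ofCountable V
  let f₀ : PI Adj := ⟨f, hf⟩
  let I := Order.idealOfCofinals f₀ (cof hA)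
  have h0 : f₀ ∈ I := Order.mem_idealOfCofinals _ _
  have hl : ∀ a, ∃ b, ∃ g ∈ I, (a, b) ∈ g.1 := by
    intro a
    obtain ⟨g, hg, hgI⟩ := Order.cofinal_meets_idealOfCofinals f₀ (cof hA) (Sum.inl a)
    obtain ⟨b, hb⟩ := hg
    exact ⟨b, g, hgI, hb⟩
  have hr : ∀ b, ∃ a, ∃ g ∈ I, (a, b) ∈ g.1 := by
    intro b
    obtain ⟨g, hg, hgI⟩ := Order.cofinal_meets_idealOfCofinals f₀ (cof hA) (Sum.inr b)
    obtain ⟨a, ha⟩ := hg
    exact ⟨a, g, hgI, ha⟩
  have hc : ∀ p q : V × V, (∃ g ∈ I, p ∈ g.1) → (∃ g ∈ I, q ∈ g.1) →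
      (p.1 = q.1 ↔ p.2 = q.2) ∧ (Adj p.1 q.1 ↔ Adj p.2 q.2) := by
    rintro p q ⟨g, hg, hpg⟩ ⟨g', hg', hqg⟩
    obtain ⟨k, -, hk1, hk2⟩ := I.directed _ hg _ hg'
    exact k.2 p (hk1 hpg) q (hk2 hqg)
  choose F hF using hl
  choose F' hF' using hr
  refine ⟨⟨F, F', ?_, ?_⟩, ?_, ?_⟩
  · intro x
    exact (hc (F' (F x), F x) (x, F x) (hF' (F x)) (hF x)).1.2 rfl
  · intro x
    exact (hc (F' x, F (F' x)) (F' x, x) (hF (F' x)) (hF' x)).1.1 rfl
  · intro x y
    exact (hc (x, F x) (y, F y) (hF x) (hF y)).2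
  · intro p hp
    exact (hc (p.1, F p.1) p (hF p.1) ⟨f₀, h0, hp⟩).1.1 rfl

/-- Two-point homogeneity. -/
theorem IsRandom.two_homog [Countable V] {Adj : V → V → Prop} (hA : IsRandom Adj)
    {a b c d : V} (hab : a ≠ b) (hcd : c ≠ d) (h : Adj a b ↔ Adj c d) :
    ∃ σ : Equiv.Perm V, (∀ x y, Adj x y ↔ Adj (σ x) (σ y)) ∧ σ a = c ∧ σ b = d := by
  classical
  have hsym : ∀ x y, Adj x y ↔ Adj y x := fun x y => ⟨hA.symm x y, hA.symm y x⟩
  obtain ⟨σ, h1, h2⟩ := hA.exists_perm (f := {(a, c), (b, d)}) (by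
    intro p hp q hq
    simp only [Finset.mem_insert, Finset.mem_singleton] at hp hq
    rcases hp with rfl | rfl <;> rcases hq with rfl | rfl
    · simp [hA.irrefl]
    · simp [hab, hcd, h]
    · simp only [hab.symm, hcd.symm, true_and]
      rw [hsym b a, hsym d c]
      simp [h]
    · simp [hA.irrefl])
  exact ⟨σ, h1, h2 (a, c) (by simp), h2 (b, d) (by simp)⟩

/-- The automorphism group of a relation. -/
def autGroup (Adj : V → V → Prop) : Subgroup (Equiv.Perm V) where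
  carrier := {σ | ∀ x y, Adj x y ↔ Adj (σ x) (σ y)}
  one_mem' := fun x y => Iff.rfl
  mul_mem' := by
    intro σ τ hσ hτ x y
    exact (hτ x y).trans (hσ (τ x) (τ y))
  inv_mem' := by
    intro σ hσ x y
    have h1 : ∀ x, σ (σ⁻¹ x) = x := fun x => Equiv.apply_symm_apply σ x
    have := hσ (σ⁻¹ x) (σ⁻¹ y)
    rw [h1, h1] at this
    exact this.symm

theorem IsRandom.isPreprimitive [Countable V] [Nonempty V] {Adj : V → V → Prop}
    (hA : IsRandom Adj) : MulAction.IsPreprimitive (autGroup Adj) V := by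
  classical
  obtain ⟨a⟩ := ‹Nonempty V›
  refine isPreprimitive_of _ a ?_ ?_
  · intro x y
    obtain ⟨σ, h1, h2⟩ := hA.exists_perm (f := {(x, y)}) (by
      intro p hp q hq
      rw [Finset.mem_singleton] at hp hq
      subst hp
      subst hq
      simp [hA.irrefl])
    exact ⟨σ, h1, h2 (x, y) (by simp)⟩
  · intro B haB hB hb
    obtain ⟨b, hbB, hba⟩ := hb
    have step : ∀ e ∈ B, ∀ c, e ≠ c → (Adj a b ↔ Adj e c) → c ∈ B := by
      intro e he c hec h
      obtain ⟨σ, h1, h2, h3⟩ := hA.two_homog hba.symm hec h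
      have := hB σ h1 ⟨a, haB, by rw [h2]; exact he⟩ b hbB
      rwa [h3] at this
    intro x
    by_cases hab : Adj a b
    · obtain ⟨z, hz1, -, hz2, -⟩ := hA.ext {a, x} ∅ (Finset.disjoint_empty_right _)
      have hza : Adj z a := hz2 a (by simp)
      have hzx : Adj z x := hz2 x (by simp)
      simp only [Finset.mem_insert, Finset.mem_singleton, not_or] at hz1
      have hzB : z ∈ B := step a haB z (fun h => hz1.1 h.symm) (by
        simp only [hab, true_iff]; exact hA.symm _ _ hza)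
      exact step z hzB x hz1.2 (by simp only [hab, true_iff]; exact hzx)
    · obtain ⟨z, -, hz1, -, hz2⟩ := hA.ext ∅ {a, x} (Finset.disjoint_empty_left _)
      have hza : ¬ Adj z a := hz2 a (by simp)
      have hzx : ¬ Adj z x := hz2 x (by simp)
      simp only [Finset.mem_insert, Finset.mem_singleton, not_or] at hz1
      have hzB : z ∈ B := step a haB z (fun h => hz1.1 h.symm) (by
        simp only [hab, false_iff]; exact fun h => hza (hA.symm _ _ h))
      exact step z hzB x hz1.2 (by simp only [hab, false_iff]; exact hzx)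

theorem IsRandom.not_two_trans [Nonempty V] {Adj : V → V → Prop}
    (hA : IsRandom Adj) : ¬ MulAction.IsMultiplyPretransitive (autGroup Adj) V 2 := by
  classical
  obtain ⟨a⟩ := ‹Nonempty V›
  rw [MulAction.is_two_pretransitive_iff]
  intro h
  obtain ⟨b, hb, -, hb1, -⟩ := hA.ext {a} ∅ (Finset.disjoint_empty_right _)
  obtain ⟨c, -, hc, -, hc1⟩ := hA.ext ∅ {a} (Finset.disjoint_empty_left _)
  have hba : Adj b a := hb1 a (by simp)
  have hca : ¬ Adj c a := hc1 a (by simp)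
  rw [Finset.mem_singleton] at hb hc
  obtain ⟨⟨g, hg⟩, h1, h2⟩ := h hb hc
  apply hca
  have h3 := (hg b a).1 hba
  have h1' : g b = c := h1
  have h2' : g a = a := h2
  rwa [h1', h2'] at h3

end Pool.Agent.MP_291637_al
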