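import Mathlib

set_option autoImplicit false

open scoped Pointwise

namespace Pool.Agent.MP_291637_al

/-- A group `X` is a B-group: every primitive permutation group containing a regular subgroup
isomorphic to `X` is doubly transitive. -/
def IsBGroup (X : Type) [Group X] : Prop :=
  ∀ (Ω : Type) (G : Subgroup (Equiv.Perm Ω)),
    MulAction.IsPreprimitive G Ω →
    (∃ H : Subgroup (Equiv.Perm Ω), H ≤ G ∧ Nonempty (H ≃* X) ∧
      ∀ ω ω' : Ω, ∃! h : H, h • ω = ω') →
    MulAction.IsMultiplyPretransitive G Ω 2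

/-- How to use a B-group: a homomorphism with regular image. -/
theorem IsBGroup.two_trans {X : Type} [Group X] (hB : IsBGroup X) {Ω : Type} [Nonempty Ω]
    (G : Subgroup (Equiv.Perm Ω)) (φ : X →* Equiv.Perm Ω)
    (hφ : ∀ ω ω' : Ω, ∃! x : X, φ x ω = ω') (hG : ∀ x, φ x ∈ G)
    (hprim : MulAction.IsPreprimitive G Ω) :
    MulAction.IsMultiplyPretransitive G Ω 2 := by
  refine hB Ω G hprim ⟨φ.range, ?_, ?_, ?_⟩
  · rintro _ ⟨x, rfl⟩
    exact hG x
  · have hinj : Function.Injective φ := by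
      intro x y hxy
      obtain ⟨ω⟩ := ‹Nonempty Ω›
      obtain ⟨z, -, hz⟩ := hφ ω (φ x ω)
      rw [hz x rfl, hz y (by simp [hxy])]
    exact ⟨(MonoidHom.ofInjective hinj).symm⟩
  · intro ω ω'
    obtain ⟨x, hx, hux⟩ := hφ ω ω'
    refine ⟨⟨φ x, x, rfl⟩, hx, ?_⟩
    rintro ⟨_, y, rfl⟩ hy
    have : y = x := hux y hy
    subst this
    rfl

/-- A criterion for primitivity. -/
theorem isPreprimitive_of {Ω : Type} (G : Subgroup (Equiv.Perm Ω)) (a : Ω)
    (htr : ∀ x y : Ω, ∃ g ∈ G, g x = y)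
    (h : ∀ B : Set Ω, a ∈ B → (∀ g ∈ G, (∃ x ∈ B, g x ∈ B) → ∀ x ∈ B, g x ∈ B) →
      (∃ b ∈ B, b ≠ a) → ∀ x, x ∈ B) :
    MulAction.IsPreprimitive G Ω := by
  have : MulAction.IsPretransitive G Ω := by
    constructor
    intro x y
    obtain ⟨g, hg, hgx⟩ := htr x y
    exact ⟨⟨g, hg⟩, hgx⟩
  refine MulAction.IsPreprimitive.of_isTrivialBlock_base (G := G) a ?_
  intro B haB hB
  by_cases hs : B.Subsingleton
  · exact Or.inl hs
  · right
    rw [Set.eq_univ_iff_forall]
    apply h B haB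
    · intro g hg hx x hxB
      obtain ⟨y, hy, hgy⟩ := hx
      have := hB (g₁ := (⟨g, hg⟩ : G)) (g₂ := 1)
      by_cases hne : (⟨g, hg⟩ : G) • B = (1 : G) • B
      · have h1 : (⟨g, hg⟩ : G) • x ∈ (⟨g, hg⟩ : G) • B := Set.smul_mem_smul_set hxB
        rw [hne, one_smul] at h1
        exact h1
      · exfalso
        have h2 := this hne
        rw [one_smul] at h2
        have h3 : (⟨g, hg⟩ : G) • y ∈ (⟨g, hg⟩ : G) • B := Set.smul_mem_smul_set hy
        exact Set.disjoint_left.1 h2 h3 hgy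
    · by_contra hcon
      push Not at hcon
      apply hs
      intro x hx y hy
      rw [hcon x hx, hcon y hy]

end Pool.Agent.MP_291637_al
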