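import Pool.Agent.Lib.MP_291637_al_BGroups.Structure

set_option autoImplicit false

open scoped Pointwise

namespace Pool.Agent.MP_291637_al

variable {X : Type} [Group X]

/-- The structural condition implies the failure of (†). -/
theorem IsTwistedDihedral.not_dagger (h : IsTwistedDihedral X) : ¬ Dagger X := by
  classical
  obtain ⟨F, I, k, hFn, hFfin, -, hIn, hI, -, hk, -, hinv⟩ := h
  rw [not_dagger_iff]
  -- centralizer of F
  let I₁ : Subgroup X := I ⊓ (MulAut.conjNormal : X →* MulAut F).ker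
  have hMA : Finite (MulAut F) := by
    have : Function.Injective (fun f : MulAut F => (f : F → F)) := DFunLike.coe_injective
    exact Finite.of_injective _ this
  have hker : (MulAut.conjNormal : X →* MulAut F).ker.FiniteIndex := inferInstance
  have hI₁ : I₁.FiniteIndex := inferInstance
  have hI₁n : I₁.Normal := inferInstance
  have hI₁I : I₁ ≤ I := inf_le_left
  have hc : ∀ x ∈ I₁, ∀ f ∈ F, x * f = f * x := by
    intro x hx f hf
    have h1 : (MulAut.conjNormal : X →* MulAut F) x = 1 := hx.2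
    have h2 : (((MulAut.conjNormal : X →* MulAut F) x) ⟨f, hf⟩ : F) = ⟨f, hf⟩ := by
      rw [h1]; rfl
    have h3 : x * f * x⁻¹ = f := by
      have := congrArg (Subtype.val) h2
      rwa [MulAut.conjNormal_apply] at this
    calc x * f = x * f * x⁻¹ * x := by group
      _ = f * x := by rw [h3]
  let η : X → X := fun x => k⁻¹ * x * k * x
  have hη : ∀ x ∈ I₁, η x ∈ F := by
    intro x hx
    have hx' : k⁻¹ * x * k ∈ I := by
      have := hIn.conj_mem x (hI₁I hx) k⁻¹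
      simpa using this
    have h1 := hinv _ hx'
    have h2 : k * (k⁻¹ * x * k) * k⁻¹ * (k⁻¹ * x * k) = x * (k⁻¹ * x * k) := by group
    rw [h2] at h1
    have h3 := hFn.conj_mem _ h1 x⁻¹
    have h4 : x⁻¹ * (x * (k⁻¹ * x * k)) * x⁻¹⁻¹ = η x := by
      change _ = k⁻¹ * x * k * x
      group
    rwa [h4] at h3
  have hsq : ∀ x, k * x * (k * x) = k * k * η x := by
    intro x
    change _ = k * k * (k⁻¹ * x * k * x)
    group
  -- quadratic law
  have hη1 : ∀ x ∈ I₁, η x ∈ I₁ := by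
    intro x hx
    have hx' : k⁻¹ * x * k ∈ I₁ := by
      have := hI₁n.conj_mem x hx k⁻¹
      simpa using this
    exact I₁.mul_mem hx' hx
  have hquad : ∀ x ∈ I₁, ∀ y ∈ I₁, η (y * x) = η y * η x * (y⁻¹ * x⁻¹ * y * x) := by
    intro x hx y hy
    have h1 : y * η x = η x * y := hc y hy _ (hη x hx)
    calc η (y * x) = k⁻¹ * y * k * (k⁻¹ * x * k * x) * x⁻¹ * y * x := by
          change k⁻¹ * (y * x) * k * (y * x) = _
          group
      _ = k⁻¹ * y * k * (y * y⁻¹) * η x * x⁻¹ * y * x := by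
          change _ = k⁻¹ * y * k * (y * y⁻¹) * (k⁻¹ * x * k * x) * x⁻¹ * y * x
          group
      _ = η y * (y⁻¹ * (η x * y)) * y⁻¹ * x⁻¹ * y * x := by
          change _ = (k⁻¹ * y * k * y) * (y⁻¹ * (η x * y)) * y⁻¹ * x⁻¹ * y * x
          group
      _ = η y * (y⁻¹ * (y * η x)) * y⁻¹ * x⁻¹ * y * x := by rw [← h1]
      _ = _ := by group
  -- a finite set Y
  obtain ⟨Y, hY, hYx⟩ : ∃ Y : Finset X, (∀ y ∈ Y, y ∈ I₁) ∧
      ∀ x ∈ I₁, ∃ y ∈ Y, k * (y * x) * (k * (y * x)) ≠ 1 := by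
    by_contra hcon
    push Not at hcon
    set c := (k * k)⁻¹ with hcdef
    have hcne : c ≠ 1 := by
      intro h
      exact hk (inv_eq_one.1 h)
    have hval : ∀ x, k * x * (k * x) = 1 → η x = c := by
      intro x hx
      rw [hsq] at hx
      exact (inv_eq_of_mul_eq_one_right hx).symm
    obtain ⟨x₁, hx₁, h1⟩ := hcon {1} (by simp)
    have e1 : η x₁ = c := hval _ (by simpa using h1 1 (by simp))
    have hcF : c ∈ F := e1 ▸ hη x₁ hx₁
    have hcI : c ∈ I₁ := e1 ▸ hη1 x₁ hx₁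
    obtain ⟨x₂, hx₂, h2⟩ := hcon {1, x₁} (by
      intro y hy
      simp only [Finset.mem_insert, Finset.mem_singleton] at hy
      rcases hy with rfl | rfl
      · exact I₁.one_mem
      · exact hx₁)
    have e2 : η x₂ = c := hval _ (by simpa using h2 1 (by simp))
    have e12 : η (x₁ * x₂) = c := hval _ (h2 x₁ (by simp))
    have hx₁₂ : x₁ * x₂ ∈ I₁ := I₁.mul_mem hx₁ hx₂
    obtain ⟨x₃, hx₃, h3⟩ := hcon {1, x₁, x₂, x₁ * x₂} (by
      intro y hy
      simp only [Finset.mem_insert, Finset.mem_singleton] at hy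
      rcases hy with rfl | rfl | rfl | rfl
      · exact I₁.one_mem
      · exact hx₁
      · exact hx₂
      · exact hx₁₂)
    have e3 : η x₃ = c := hval _ (by simpa using h3 1 (by simp))
    have e13 : η (x₁ * x₃) = c := hval _ (h3 x₁ (by simp))
    have e23 : η (x₂ * x₃) = c := hval _ (h3 x₂ (by simp))
    have e123 : η (x₁ * x₂ * x₃) = c := hval _ (h3 (x₁ * x₂) (by simp))
    have q13 := hquad x₃ hx₃ x₁ hx₁
    have q23 := hquad x₃ hx₃ x₂ hx₂
    have q123 := hquad x₃ hx₃ (x₁ * x₂) hx₁₂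
    rw [e1, e3, e13] at q13
    rw [e2, e3, e23] at q23
    rw [e12, e3, e123] at q123
    have f13 : x₁⁻¹ * x₃⁻¹ * x₁ * x₃ = c⁻¹ := by
      have h4 : c * (c * (x₁⁻¹ * x₃⁻¹ * x₁ * x₃)) = c * 1 := by rw [mul_one, ← mul_assoc, ← q13]
      exact (inv_eq_of_mul_eq_one_right (mul_left_cancel h4)).symm
    have f23 : x₂⁻¹ * x₃⁻¹ * x₂ * x₃ = c⁻¹ := by
      have h4 : c * (c * (x₂⁻¹ * x₃⁻¹ * x₂ * x₃)) = c * 1 := by rw [mul_one, ← mul_assoc, ← q23]
      exact (inv_eq_of_mul_eq_one_right (mul_left_cancel h4)).symm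
    have f123 : (x₁ * x₂)⁻¹ * x₃⁻¹ * (x₁ * x₂) * x₃ = c⁻¹ := by
      have h4 : c * (c * ((x₁ * x₂)⁻¹ * x₃⁻¹ * (x₁ * x₂) * x₃)) = c * 1 := by
        rw [mul_one, ← mul_assoc, ← q123]
      exact (inv_eq_of_mul_eq_one_right (mul_left_cancel h4)).symm
    have hcx₂ : x₂ * c⁻¹ = c⁻¹ * x₂ := hc x₂ hx₂ _ (F.inv_mem hcF)
    have h5 : (x₁ * x₂)⁻¹ * x₃⁻¹ * (x₁ * x₂) * x₃ = c⁻¹ * c⁻¹ := by
      calc (x₁ * x₂)⁻¹ * x₃⁻¹ * (x₁ * x₂) * x₃
          = x₂⁻¹ * (x₁⁻¹ * x₃⁻¹ * x₁ * x₃) * x₃⁻¹ * x₂ * x₃ := by group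
        _ = x₂⁻¹ * c⁻¹ * x₃⁻¹ * x₂ * x₃ := by rw [f13]
        _ = x₂⁻¹ * (c⁻¹ * x₂) * (x₂⁻¹ * x₃⁻¹ * x₂ * x₃) := by group
        _ = x₂⁻¹ * (x₂ * c⁻¹) * c⁻¹ := by rw [hcx₂, f23]
        _ = c⁻¹ * c⁻¹ := by group
    rw [f123] at h5
    have h6 : c⁻¹ = 1 := by
      have := mul_eq_left.1 h5.symm
      exact this
    exact hcne (inv_eq_one.1 h6)
  have : Finite (X ⧸ I₁) := inferInstance
  have : Fintype (X ⧸ I₁) := Fintype.ofFinite _
  let T : Finset X := Finset.univ.image (fun q : X ⧸ I₁ => (Quotient.out q : X))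
  have hT : ∀ x : X, ∃ t ∈ T, t⁻¹ * x ∈ I₁ := by
    intro x
    refine ⟨Quotient.out (QuotientGroup.mk x : X ⧸ I₁),
      Finset.mem_image_of_mem _ (Finset.mem_univ _), ?_⟩
    rw [← QuotientGroup.eq]
    exact Quotient.out_eq _
  have hFf : (F : Set X).Finite := Set.toFinite _
  let Fs : Finset X := hFf.toFinset
  let P : Finset (X × X) := (((Y ×ˢ T) ×ˢ Fs).image
    (fun q => (k * q.1.1 * q.1.2⁻¹, k * k * q.2))).filter (fun p => p.2 ≠ 1)
  refine ⟨P, ∅, fun p hp => (Finset.mem_filter.1 hp).2, ?_⟩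
  intro z _
  obtain ⟨t, ht, hx⟩ := hT z
  obtain ⟨y, hy, hyx⟩ := hYx _ hx
  have h1 : η (y * (t⁻¹ * z)) ∈ F := hη _ (I₁.mul_mem (hY y hy) hx)
  have h2 : k * y * t⁻¹ * z * (k * y * t⁻¹ * z) = k * k * η (y * (t⁻¹ * z)) := by
    rw [← hsq]
    group
  refine ⟨(k * y * t⁻¹, k * k * η (y * (t⁻¹ * z))), Finset.mem_filter.2 ⟨?_, ?_⟩, h2⟩
  · refine Finset.mem_image.2 ⟨((y, t), η (y * (t⁻¹ * z))), ?_, rfl⟩
    exact Finset.mem_product.2 ⟨Finset.mem_product.2 ⟨hy, ht⟩, hFf.mem_toFinset.2 h1⟩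
  · change k * k * η (y * (t⁻¹ * z)) ≠ 1
    rw [← hsq]
    exact hyx

end Pool.Agent.MP_291637_al
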