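import Mathlib

set_option autoImplicit false

open scoped Pointwise

namespace Pool.Agent.MP_291637_al

variable {X : Type} [Group X]

/-- Centralizer of finite index at most `N`. -/
def Good (N : ℕ) (x : X) : Prop :=
  (Subgroup.centralizer {x}).FiniteIndex ∧ (Subgroup.centralizer {x}).index ≤ N

/-- First step: among any `n+1` elements two have a quotient with a small class. -/
theorem exists_good_of_cover [Infinite X] (P : Finset (X × X)) (Z : Finset X)
    (hcov : ∀ z, z ∉ Z → ∃ p ∈ P, p.1 * z * (p.1 * z) = p.2) (n : ℕ) (hn : n = P.card)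
    (u : Fin (n + 1) → X) :
    ∃ l m, l ≠ m ∧ Good ((n + 1) * (n + 1) * n + (n + 1) * Z.card)
      (u m * (u l)⁻¹) := by
  classical
  -- solutions
  let Sol : (Fin (n + 1) × Fin (n + 1)) × (X × X) → X → Prop := fun t z =>
    t.2.1 * z * u t.1.1 * (t.2.1 * z * u t.1.1) = t.2.2 ∧
    t.2.1 * z * u t.1.2 * (t.2.1 * z * u t.1.2) = t.2.2
  let I₁ : Finset ((Fin (n + 1) × Fin (n + 1)) × (X × X)) :=
    ((Finset.univ ×ˢ P).filter (fun t => t.1.1 ≠ t.1.2 ∧ ∃ z, Sol t z))
  let I₂ : Finset X := ((Finset.univ : Finset (Fin (n + 1))) ×ˢ Z).image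
    (fun q => q.2 * (u q.1)⁻¹)
  let s : Finset (((Fin (n + 1) × Fin (n + 1)) × (X × X)) ⊕ X) := I₁.disjSum I₂
  let H : ((Fin (n + 1) × Fin (n + 1)) × (X × X)) ⊕ X → Subgroup X :=
    Sum.elim (fun t => Subgroup.centralizer {u t.1.2 * (u t.1.1)⁻¹}) (fun _ => ⊥)
  let g : ((Fin (n + 1) × Fin (n + 1)) × (X × X)) ⊕ X → X :=
    Sum.elim (fun t => if h : ∃ z, Sol t z then h.choose else 1) id
  have hc : ⋃ i ∈ s, g i • (H i : Set X) = Set.univ := by
    rw [Set.eq_univ_iff_forall]
    intro z
    rw [Set.mem_iUnion₂]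
    by_cases hz : ∃ l, z * u l ∈ Z
    · obtain ⟨l, hl⟩ := hz
      refine ⟨Sum.inr z, ?_, ?_⟩
      · refine Finset.inr_mem_disjSum.2 (Finset.mem_image.2 ⟨(l, z * u l), ?_, ?_⟩)
        · exact Finset.mem_product.2 ⟨Finset.mem_univ _, hl⟩
        · simp
      · change z ∈ z • ((⊥ : Subgroup X) : Set X)
        rw [Set.mem_smul_set]
        exact ⟨1, Subgroup.one_mem _, by simp⟩
    · push Not at hz
      have h1 : ∀ l, ∃ p : P, p.1.1 * (z * u l) * (p.1.1 * (z * u l)) = p.1.2 := by
        intro l
        obtain ⟨p, hp, hp'⟩ := hcov _ (hz l)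
        exact ⟨⟨p, hp⟩, hp'⟩
      choose f hf using h1
      obtain ⟨l, m, hlm, hflm⟩ := Fintype.exists_ne_map_eq_of_card_lt f (by
        simp [hn])
      have hS : Sol ((l, m), (f l).1) z := by
        constructor
        · have := hf l
          simpa only [mul_assoc] using this
        · have := hf m
          rw [← hflm] at this
          simpa only [mul_assoc] using this
      have hex : ∃ z, Sol ((l, m), (f l).1) z := ⟨z, hS⟩
      refine ⟨Sum.inl ((l, m), (f l).1), ?_, ?_⟩
      · refine Finset.inl_mem_disjSum.2 (Finset.mem_filter.2 ⟨?_, hlm, hex⟩)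
        exact Finset.mem_product.2 ⟨Finset.mem_univ _, (f l).2⟩
      · change z ∈ (if h : ∃ z, Sol ((l, m), (f l).1) z then h.choose else 1) •
          ((Subgroup.centralizer {u m * (u l)⁻¹} : Subgroup X) : Set X)
        rw [dif_pos hex, Set.mem_smul_set]
        have hS' := hex.choose_spec
        set z₀ := hex.choose
        refine ⟨z₀⁻¹ * z, ?_, by simp⟩
        rw [SetLike.mem_coe, Subgroup.mem_centralizer_singleton_iff]
        -- both conjugate `u m (u l)⁻¹` to `(u m)⁻¹ u l`
        have conj : ∀ y, Sol ((l, m), (f l).1) y →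
            ((f l).1.1 * y) * (u m * (u l)⁻¹) * ((f l).1.1 * y)⁻¹ = (u m)⁻¹ * u l := by
          intro y hy
          have h2 := hy.1.trans hy.2.symm
          change (f l).1.1 * y * u l * ((f l).1.1 * y * u l) =
            (f l).1.1 * y * u m * ((f l).1.1 * y * u m) at h2
          set w := (f l).1.1 * y
          have h3 : u l * w * u l = u m * w * u m := by
            have h4 : w * (u l * w * u l) = w * (u m * w * u m) := by
              simpa only [mul_assoc] using h2
            exact mul_left_cancel h4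
          calc w * (u m * (u l)⁻¹) * w⁻¹
              = (u m)⁻¹ * (u m * w * u m) * (u l)⁻¹ * w⁻¹ := by group
            _ = (u m)⁻¹ * (u l * w * u l) * (u l)⁻¹ * w⁻¹ := by rw [h3]
            _ = (u m)⁻¹ * u l := by group
        have e1 := conj z hS
        have e2 := conj z₀ hS'
        set a := u m * (u l)⁻¹
        set v := (f l).1.1
        calc z₀⁻¹ * z * a = (v * z₀)⁻¹ * ((v * z) * a * (v * z)⁻¹) * (v * z) := by group
          _ = (v * z₀)⁻¹ * ((v * z₀) * a * (v * z₀)⁻¹) * (v * z) := by rw [e1, e2]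
          _ = a * (z₀⁻¹ * z) := by group
  obtain ⟨i, his, hfi, hle⟩ := Subgroup.exists_index_le_card_of_leftCoset_cover hc
  have hcard : s.card ≤ (n + 1) * (n + 1) * n + (n + 1) * Z.card := by
    rw [Finset.card_disjSum]
    apply Nat.add_le_add
    · refine (Finset.card_filter_le _ _).trans ?_
      rw [Finset.card_product]
      simp [hn]
    · refine Finset.card_image_le.trans ?_
      rw [Finset.card_product]
      simp
  rcases i with t | x
  · have ht := (Finset.mem_filter.1 (Finset.inl_mem_disjSum.1 his)).2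
    exact ⟨t.1.1, t.1.2, ht.1, hfi, hle.trans hcard⟩
  · exfalso
    have h1 : (⊥ : Subgroup X).FiniteIndex := hfi
    have : Finite (X ⧸ (⊥ : Subgroup X)) := inferInstance
    have : Finite X := Finite.of_equiv _ (QuotientGroup.quotientBot (G := X)).toEquiv
    exact not_finite X

theorem Good.inv {N : ℕ} {x : X} (h : Good N x) : Good N x⁻¹ := by
  have : Subgroup.centralizer {x⁻¹} = Subgroup.centralizer {x} := by
    ext y
    rw [Subgroup.mem_centralizer_singleton_iff, Subgroup.mem_centralizer_singleton_iff]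
    constructor
    · intro h
      calc y * x = x * (x⁻¹ * y) * x := by group
        _ = x * (y * x⁻¹) * x := by rw [h]
        _ = x * y := by group
    · intro h
      calc y * x⁻¹ = x⁻¹ * (x * y) * x⁻¹ := by group
        _ = x⁻¹ * (y * x) * x⁻¹ := by rw [h]
        _ = x⁻¹ * y := by group
  unfold Good
  rw [this]
  exact h

theorem Good.mul {N M : ℕ} {x y : X} (hx : Good N x) (hy : Good M y) : Good (N * M) (x * y) := by
  have hle : Subgroup.centralizer {x} ⊓ Subgroup.centralizer {y} ≤
      Subgroup.centralizer {x * y} := by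
    intro z hz
    rw [Subgroup.mem_inf, Subgroup.mem_centralizer_singleton_iff,
      Subgroup.mem_centralizer_singleton_iff] at hz
    rw [Subgroup.mem_centralizer_singleton_iff]
    calc z * (x * y) = z * x * y := by group
      _ = x * (z * y) := by rw [hz.1]; group
      _ = x * y * z := by rw [hz.2]; group
  have := hx.1
  have := hy.1
  have hfi : (Subgroup.centralizer {x} ⊓ Subgroup.centralizer {y}).FiniteIndex := inferInstance
  refine ⟨Subgroup.finiteIndex_of_le hle, ?_⟩
  refine (Subgroup.index_antitone hle).trans ?_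
  refine Subgroup.index_inf_le.trans ?_
  exact Nat.mul_le_mul hx.2 hy.2

theorem Good.mono {N M : ℕ} {x : X} (hx : Good N x) (h : N ≤ M) : Good M x :=
  ⟨hx.1, hx.2.trans h⟩

variable (X) in
/-- The FC-centre. -/
def fc : Subgroup X where
  carrier := {x | ∃ N, Good N x}
  one_mem' := by
    refine ⟨1, ?_, ?_⟩
    · have : Subgroup.centralizer {(1 : X)} = ⊤ := by
        ext; simp [Subgroup.mem_centralizer_singleton_iff]
      rw [this]
      infer_instance
    · have : Subgroup.centralizer {(1 : X)} = ⊤ := by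
        ext; simp [Subgroup.mem_centralizer_singleton_iff]
      rw [this]
      simp
  mul_mem' := by
    rintro x y ⟨N, hN⟩ ⟨M, hM⟩
    exact ⟨N * M, hN.mul hM⟩
  inv_mem' := by
    rintro x ⟨N, hN⟩
    exact ⟨N, hN.inv⟩

theorem Good.conj {N : ℕ} {x : X} (h : Good N x) (g : X) : Good N (g * x * g⁻¹) := by
  have : Subgroup.centralizer {g * x * g⁻¹} =
      (Subgroup.centralizer {x}).map (MulAut.conj g).toMonoidHom := by
    ext y
    rw [Subgroup.mem_centralizer_singleton_iff, Subgroup.mem_map]
    constructor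
    · intro h
      refine ⟨g⁻¹ * y * g, ?_, ?_⟩
      · rw [Subgroup.mem_centralizer_singleton_iff]
        calc g⁻¹ * y * g * x = g⁻¹ * (y * (g * x * g⁻¹)) * g := by group
          _ = g⁻¹ * ((g * x * g⁻¹) * y) * g := by rw [h]
          _ = x * (g⁻¹ * y * g) := by group
      · simp [mul_assoc]
    · rintro ⟨z, hz, rfl⟩
      rw [Subgroup.mem_centralizer_singleton_iff] at hz
      change g * z * g⁻¹ * (g * x * g⁻¹) = g * x * g⁻¹ * (g * z * g⁻¹)
      calc g * z * g⁻¹ * (g * x * g⁻¹) = g * (z * x) * g⁻¹ := by group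
        _ = g * (x * z) * g⁻¹ := by rw [hz]
        _ = _ := by group
  have hi : (Subgroup.centralizer {g * x * g⁻¹}).index = (Subgroup.centralizer {x}).index := by
    rw [this]
    exact Subgroup.index_map_equiv _ (MulAut.conj g)
  refine ⟨?_, hi.le.trans h.2⟩
  rw [Subgroup.finiteIndex_iff, hi]
  exact h.1.index_ne_zero

instance fc_normal : (fc X).Normal := ⟨fun _ ⟨N, hN⟩ g => ⟨N, hN.conj g⟩⟩

/-- The FC-centre has finite index and its classes are bounded. -/
theorem fc_of_cover [Infinite X] (P : Finset (X × X)) (Z : Finset X)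
    (hcov : ∀ z, z ∉ Z → ∃ p ∈ P, p.1 * z * (p.1 * z) = p.2) :
    (fc X).FiniteIndex ∧ ∃ M, ∀ x ∈ fc X, Good M x := by
  classical
  set N₀ := (P.card + 1) * (P.card + 1) * P.card + (P.card + 1) * Z.card with hN₀
  -- a maximal bad family
  obtain ⟨T, hT⟩ : ∃ T : Finset X, ∀ x : X, ∃ t ∈ T, Good N₀ (x * t⁻¹) := by
    by_contra hcon
    push Not at hcon
    have h1 : ∀ k : ℕ, ∃ u : Fin k → X, ∀ l m, l ≠ m → ¬ Good N₀ (u m * (u l)⁻¹) := by
      intro k
      induction k with
      | zero => exact ⟨Fin.elim0, fun l => l.elim0⟩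
      | succ k ih =>
        obtain ⟨u, hu⟩ := ih
        obtain ⟨x, hx⟩ := hcon (Finset.univ.image u)
        refine ⟨Fin.snoc (α := fun _ => X) u x, ?_⟩
        intro l m hlm
        induction l using Fin.lastCases with
        | last =>
          induction m using Fin.lastCases with
          | last => exact absurd rfl hlm
          | cast m =>
            rw [Fin.snoc_last, Fin.snoc_castSucc]
            intro hg
            apply hx (u m) (Finset.mem_image_of_mem _ (Finset.mem_univ _))
            have := hg.inv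
            simpa using this
        | cast l =>
          induction m using Fin.lastCases with
          | last =>
            rw [Fin.snoc_last, Fin.snoc_castSucc]
            exact hx (u l) (Finset.mem_image_of_mem _ (Finset.mem_univ _))
          | cast m =>
            rw [Fin.snoc_castSucc, Fin.snoc_castSucc]
            exact hu l m (fun h => hlm (by rw [h]))
    obtain ⟨u, hu⟩ := h1 (P.card + 1)
    obtain ⟨l, m, hlm, hg⟩ := exists_good_of_cover P Z hcov _ rfl u
    exact hu l m hlm hg
  constructor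
  · -- finite index
    have hfin : Finite (X ⧸ fc X) := by
      have hsurj : Function.Surjective (fun t : T => (QuotientGroup.mk t.1 : X ⧸ fc X)) := by
        intro q
        obtain ⟨x, rfl⟩ := QuotientGroup.mk_surjective q
        obtain ⟨t, ht, hg⟩ := hT x⁻¹⁻¹
        refine ⟨⟨t, ht⟩, ?_⟩
        rw [QuotientGroup.eq]
        change t⁻¹ * x ∈ fc X
        have h2 : x * t⁻¹ ∈ fc X := ⟨N₀, by simpa using hg⟩
        have h3 := (fc_normal (X := X)).conj_mem _ h2 t⁻¹
        have h4 : t⁻¹ * (x * t⁻¹) * t⁻¹⁻¹ = t⁻¹ * x := by group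
        rwa [h4] at h3
      exact Finite.of_surjective _ hsurj
    exact Subgroup.finiteIndex_of_finite_quotient
  · have h1 : ∀ t ∈ T, ∃ M, t ∈ fc X → Good M t := by
      intro t _
      by_cases h : t ∈ fc X
      · obtain ⟨M, hM⟩ := h
        exact ⟨M, fun _ => hM⟩
      · exact ⟨0, fun h' => absurd h' h⟩
    choose! M hM using h1
    refine ⟨N₀ * (T.sup M), ?_⟩
    intro x hx
    obtain ⟨t, ht, hg⟩ := hT x
    have htfc : t ∈ fc X := by
      have h2 : x * t⁻¹ ∈ fc X := ⟨N₀, hg⟩
      have h3 := (fc X).mul_mem ((fc X).inv_mem h2) hx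
      have h4 : (x * t⁻¹)⁻¹ * x = t := by group
      rwa [h4] at h3
    have h5 := hg.mul ((hM t ht htfc).mono (Finset.le_sup (f := M) ht))
    simpa using h5

end Pool.Agent.MP_291637_al
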