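import Pool.Agent.Lib.MP_291637_al_BGroups.BackForth

set_option autoImplicit false

namespace Pool.Agent.MP_291637_al

variable {X : Type} [Group X]

/-- The set `T(x,y) = {z : x z⁻¹ = z y⁻¹}`. -/
def TSet (x y : X) : Set X := {z | x * z⁻¹ = z * y⁻¹}

variable (X) in
/-- Property (†): `X` is not the union of finitely many sets `T(x_i, y_i)` with `x_i ≠ y_i`
and a finite set. -/
def Dagger : Prop :=
  ∀ (P : Finset (X × X)) (Z : Finset X), (∀ p ∈ P, p.1 ≠ p.2) →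
    (⋃ p ∈ P, TSet p.1 p.2) ∪ (Z : Set X) ≠ Set.univ

theorem Dagger.exists_notMem (hX : Dagger X) (P : Finset (X × X)) (Z : Finset X)
    (hP : ∀ p ∈ P, p.1 ≠ p.2) : ∃ z, z ∉ Z ∧ ∀ p ∈ P, z ∉ TSet p.1 p.2 := by
  have h := hX P Z hP
  rw [Set.ne_univ_iff_exists_notMem] at h
  obtain ⟨z, hz⟩ := h
  rw [Set.mem_union, not_or] at hz
  refine ⟨z, fun h => hz.2 (Finset.mem_coe.2 h), ?_⟩
  intro p hp hzp
  apply hz.1
  rw [Set.mem_iUnion₂]
  exact ⟨p, hp, hzp⟩

/-- Conditions for the construction of a random Cayley graph. -/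
def IsCond (A B : Finset X) : Prop :=
  Disjoint A B ∧ (∀ a ∈ A, a⁻¹ ∈ A) ∧ (∀ b ∈ B, b⁻¹ ∈ B) ∧ 1 ∈ B

theorem IsCond.extend (hX : Dagger X) {A B : Finset X} (hAB : IsCond A B)
    (U W : Finset X) (hUW : Disjoint U W) :
    ∃ A' B' : Finset X, IsCond A' B' ∧ A ⊆ A' ∧ B ⊆ B' ∧ ∃ z, z ∉ U ∧ z ∉ W ∧
      (∀ u ∈ U, z * u⁻¹ ∈ A') ∧ (∀ w ∈ W, z * w⁻¹ ∈ B') := by
  classical
  obtain ⟨hd, hA, hB, h1⟩ := hAB
  obtain ⟨z, hz, hzT⟩ := hX.exists_notMem (U ×ˢ W)
    (((A ∪ B) ×ˢ (U ∪ W)).image (fun p => p.1 * p.2)) (by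
      rintro ⟨u, w⟩ hp h
      rw [Finset.mem_product] at hp
      exact Finset.disjoint_left.1 hUW hp.1 (by rw [show u = w from h]; exact hp.2))
  have hz1 : ∀ u ∈ U ∪ W, z * u⁻¹ ∉ A ∪ B := by
    intro u hu h
    apply hz
    rw [Finset.mem_image]
    exact ⟨(z * u⁻¹, u), Finset.mem_product.2 ⟨h, hu⟩, by simp⟩
  have hz2 : ∀ u ∈ U ∪ W, u * z⁻¹ ∉ A ∪ B := by
    intro u hu h
    apply hz1 u hu
    rw [Finset.mem_union] at h ⊢
    rcases h with h | h
    · left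
      have := hA _ h
      simpa using this
    · right
      have := hB _ h
      simpa using this
  have hz3 : z ∉ U ∪ W := by
    intro h
    apply hz1 z h
    simp [h1]
  rw [Finset.mem_union, not_or] at hz3
  refine ⟨A ∪ (U.image (fun u => z * u⁻¹) ∪ U.image (fun u => u * z⁻¹)),
    B ∪ (W.image (fun u => z * u⁻¹) ∪ W.image (fun u => u * z⁻¹)), ⟨?_, ?_, ?_, ?_⟩,
    Finset.subset_union_left, Finset.subset_union_left, z, hz3.1, hz3.2, ?_, ?_⟩
  · rw [Finset.disjoint_left]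
    intro x hx hx'
    simp only [Finset.mem_union, Finset.mem_image] at hx hx'
    rcases hx with hx | ⟨u, hu, rfl⟩ | ⟨u, hu, rfl⟩
    · rcases hx' with hx' | ⟨w, hw, rfl⟩ | ⟨w, hw, rfl⟩
      · exact Finset.disjoint_left.1 hd hx hx'
      · exact hz1 w (Finset.mem_union_right _ hw) (Finset.mem_union_left _ hx)
      · exact hz2 w (Finset.mem_union_right _ hw) (Finset.mem_union_left _ hx)
    · rcases hx' with hx' | ⟨w, hw, hx'⟩ | ⟨w, hw, hx'⟩
      · exact hz1 u (Finset.mem_union_left _ hu) (Finset.mem_union_right _ hx')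
      · have : w = u := by
          have := mul_left_cancel hx'
          exact inv_injective this
        subst this
        exact Finset.disjoint_left.1 hUW hu hw
      · apply hzT (u, w) (Finset.mem_product.2 ⟨hu, hw⟩)
        change u * z⁻¹ = z * w⁻¹
        rw [← inv_inj]
        simpa using hx'.symm
    · rcases hx' with hx' | ⟨w, hw, hx'⟩ | ⟨w, hw, hx'⟩
      · exact hz2 u (Finset.mem_union_left _ hu) (Finset.mem_union_right _ hx')
      · apply hzT (u, w) (Finset.mem_product.2 ⟨hu, hw⟩)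
        exact hx'.symm
      · have : w = u := mul_right_cancel hx'
        subst this
        exact Finset.disjoint_left.1 hUW hu hw
  · intro x hx
    simp only [Finset.mem_union, Finset.mem_image] at hx ⊢
    rcases hx with hx | ⟨u, hu, rfl⟩ | ⟨u, hu, rfl⟩
    · exact Or.inl (hA x hx)
    · exact Or.inr (Or.inr ⟨u, hu, by simp⟩)
    · exact Or.inr (Or.inl ⟨u, hu, by simp⟩)
  · intro x hx
    simp only [Finset.mem_union, Finset.mem_image] at hx ⊢
    rcases hx with hx | ⟨u, hu, rfl⟩ | ⟨u, hu, rfl⟩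
    · exact Or.inl (hB x hx)
    · exact Or.inr (Or.inr ⟨u, hu, by simp⟩)
    · exact Or.inr (Or.inl ⟨u, hu, by simp⟩)
  · exact Finset.mem_union_left _ h1
  · intro u hu
    exact Finset.mem_union_right _ (Finset.mem_union_left _ (Finset.mem_image_of_mem _ hu))
  · intro u hu
    exact Finset.mem_union_right _ (Finset.mem_union_left _ (Finset.mem_image_of_mem _ hu))

variable (X) in
/-- The poset of conditions. -/
def Cond : Type := {p : Finset X × Finset X // IsCond p.1 p.2}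

instance : Preorder (Cond X) := Preorder.lift (fun p => p.1)

/-- Under (†) there is a random Cayley graph. -/
theorem Dagger.exists_random [Countable X] (hX : Dagger X) :
    ∃ S : Set X, IsRandom (fun x y : X => x * y⁻¹ ∈ S) := by
  classical
  let ι : Type := {p : Finset X × Finset X // Disjoint p.1 p.2}
  let _ : Encodable ι := Encodable.ofCountable ι
  let D : ι → Order.Cofinal (Cond X) := fun i =>
    { carrier := {q | ∃ z, z ∉ i.1.1 ∧ z ∉ i.1.2 ∧ (∀ u ∈ i.1.1, z * u⁻¹ ∈ q.1.1) ∧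
        (∀ w ∈ i.1.2, z * w⁻¹ ∈ q.1.2)}
      isCofinal := fun q => by
        obtain ⟨A', B', h1, h2, h3, h4⟩ := q.2.extend hX i.1.1 i.1.2 i.2
        exact ⟨⟨(A', B'), h1⟩, h4, h2, h3⟩ }
  let q₀ : Cond X := ⟨(∅, {1}), by
    refine ⟨Finset.disjoint_empty_left _, by simp, by simp, by simp⟩⟩
  let I := Order.idealOfCofinals q₀ D
  have hdir : ∀ p ∈ I, ∀ q ∈ I, ∃ r ∈ I, p ≤ r ∧ q ≤ r := fun p hp q hq => I.directed p hp q hq
  have hnot : ∀ x, (∃ p ∈ I, x ∈ p.1.1) → (∃ p ∈ I, x ∈ p.1.2) → False := by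
    rintro x ⟨p, hp, hxp⟩ ⟨q, hq, hxq⟩
    obtain ⟨r, -, h1, h2⟩ := hdir p hp q hq
    exact Finset.disjoint_left.1 r.2.1 (h1.1 hxp) (h2.2 hxq)
  refine ⟨{x | ∃ p ∈ I, x ∈ p.1.1}, ?_, ?_, ?_⟩
  · rintro x y ⟨p, hp, hxy⟩
    refine ⟨p, hp, ?_⟩
    have := p.2.2.1 _ hxy
    simpa using this
  · rintro x ⟨p, hp, hx⟩
    rw [mul_inv_cancel] at hx
    exact hnot 1 ⟨p, hp, hx⟩ ⟨p, hp, p.2.2.2.2⟩
  · intro U W hUW
    obtain ⟨p, hpD, hpI⟩ := Order.cofinal_meets_idealOfCofinals q₀ D ⟨(U, W), hUW⟩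
    obtain ⟨z, hz1, hz2, hz3, hz4⟩ := hpD
    refine ⟨z, hz1, hz2, fun u hu => ⟨p, hpI, hz3 u hu⟩, ?_⟩
    intro w hw h
    exact hnot _ h ⟨p, hpI, hz4 w hw⟩

/-- The regular representation by right multiplications. -/
def rightReg : X →* Equiv.Perm X where
  toFun g := Equiv.mulRight g⁻¹
  map_one' := by ext; simp
  map_mul' := by intro g h; ext x; simp [mul_assoc]

/-- Groups with property (†) are not B-groups. -/
theorem Dagger.not_isBGroup [Countable X] (hX : Dagger X) : ¬ IsBGroup X := by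
  intro hB
  obtain ⟨S, hS⟩ := hX.exists_random
  refine hS.not_two_trans (hB.two_trans _ rightReg ?_ ?_ hS.isPreprimitive)
  · intro x y
    refine ⟨y⁻¹ * x, ?_, ?_⟩
    · simp [rightReg]
    · intro g hg
      have : x * g⁻¹ = y := hg
      rw [← this]
      simp
  · intro g x y
    have : x * g⁻¹ * (y * g⁻¹)⁻¹ = x * y⁻¹ := by group
    change x * y⁻¹ ∈ S ↔ x * g⁻¹ * (y * g⁻¹)⁻¹ ∈ S
    rw [this]

end Pool.Agent.MP_291637_al
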