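import Pool.Agent.Lib.MP_291637_al_BGroups.BackForth

set_option autoImplicit false

namespace Pool.Agent.MP_291637_al

/-- The relation of the infinite rook graph. -/
def Rook (p q : ℕ × ℕ) : Prop := p.1 = q.1 ∨ p.2 = q.2

theorem prodCongr_mem_rook (π ρ : Equiv.Perm ℕ) :
    (Equiv.prodCongr π ρ : Equiv.Perm (ℕ × ℕ)) ∈ autGroup Rook := by
  intro p q
  simp [Rook]

theorem prodComm_mem_rook : (Equiv.prodComm ℕ ℕ : Equiv.Perm (ℕ × ℕ)) ∈ autGroup Rook := by
  intro p q
  simp [Rook, or_comm]

theorem rook_isPreprimitive : MulAction.IsPreprimitive (autGroup Rook) (ℕ × ℕ) := by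
  refine isPreprimitive_of _ (0, 0) ?_ ?_
  · rintro ⟨x1, x2⟩ ⟨y1, y2⟩
    refine ⟨_, prodCongr_mem_rook (Equiv.swap x1 y1) (Equiv.swap x2 y2), ?_⟩
    simp
  · intro B haB hB hb
    obtain ⟨⟨i, j⟩, hbB, hba⟩ := hb
    -- the coordinate swap preserves `B`
    have hcomm : ∀ m n, (m, n) ∈ B → (n, m) ∈ B := by
      intro m n h
      exact hB _ prodComm_mem_rook ⟨(0, 0), haB, haB⟩ (m, n) h
    -- there is a point of the zeroth row
    obtain ⟨n, hn0, hn⟩ : ∃ n, n ≠ 0 ∧ (0, n) ∈ B := by
      by_cases hi : i = 0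
      · subst hi
        exact ⟨j, fun h => hba (by rw [h]), hbB⟩
      · by_cases hj : j = 0
        · subst hj
          exact ⟨i, hi, hcomm _ _ hbB⟩
        · -- choose another column
          have h1 : (i, j + 1) ∈ B := by
            have := hB _ (prodCongr_mem_rook 1 (Equiv.swap j (j + 1)))
              ⟨(0, 0), haB, by
                have : Equiv.swap j (j + 1) 0 = 0 :=
                  Equiv.swap_apply_of_ne_of_ne (Ne.symm hj) (by omega)
                simp [this, haB]⟩ (i, j) hbB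
            simpa using this
          have h2 := hB _ (prodCongr_mem_rook (Equiv.swap 0 i) (Equiv.swap 0 j))
            ⟨(i, j), hbB, by simpa using haB⟩ (i, j + 1) h1
          have h3 : Equiv.swap 0 j (j + 1) = j + 1 :=
            Equiv.swap_apply_of_ne_of_ne (by omega) (by omega)
          have h4 : (0, j + 1) ∈ B := by simpa [h3] using h2
          exact ⟨j + 1, by omega, h4⟩
    -- the whole zeroth row
    have hrow : ∀ m, (0, m) ∈ B := by
      intro m
      by_cases hm : m = 0
      · rw [hm]; exact haB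
      · have h1 := hB _ (prodCongr_mem_rook 1 (Equiv.swap n m))
          ⟨(0, 0), haB, by
            have : Equiv.swap n m 0 = 0 :=
              Equiv.swap_apply_of_ne_of_ne (Ne.symm hn0) (Ne.symm hm)
            simp [this, haB]⟩ (0, n) hn
        simpa using h1
    rintro ⟨m, l⟩
    have h1 := hB _ (prodCongr_mem_rook (Equiv.swap 0 m) 1)
      ⟨(0, 0), haB, by simpa using hcomm _ _ (hrow m)⟩ (0, l) (hrow l)
    simpa using h1

theorem rook_not_two_trans :
    ¬ MulAction.IsMultiplyPretransitive (autGroup Rook) (ℕ × ℕ) 2 := by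
  rw [MulAction.is_two_pretransitive_iff]
  intro h
  obtain ⟨⟨g, hg⟩, h1, h2⟩ := h (a := ((0, 0) : ℕ × ℕ)) (b := (0, 1)) (c := (0, 0)) (d := (1, 1))
    (by simp) (by simp)
  have h1' : g (0, 0) = (0, 0) := h1
  have h2' : g (0, 1) = (1, 1) := h2
  have h3 := (hg (0, 0) (0, 1)).1 (Or.inl rfl)
  rw [h1', h2'] at h3
  simp [Rook] at h3

/-- The regular representation, transported along a bijection. -/
def transReg {X Ω : Type} [Group X] (e : X ≃ Ω) : X →* Equiv.Perm Ω :=
  (Equiv.permCongrHom e).toMonoidHom.comp (MulAction.toPermHom X X)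

theorem transReg_apply {X Ω : Type} [Group X] (e : X ≃ Ω) (x : X) (ω : Ω) :
    transReg e x ω = e (x * e.symm ω) := rfl

/-- A countable group with an exact factorization into two infinite subgroups is not a B-group. -/
theorem not_isBGroup_of_factorization {X : Type} [Group X] [Countable X] (A B : Subgroup X)
    [Infinite A] [Infinite B] (hAB : A ⊓ B = ⊥) (h : ∀ x : X, ∃ a ∈ A, ∃ b ∈ B, a * b = x) :
    ¬ IsBGroup X := by
  intro hX
  -- quotients are countably infinite
  have hqA : Infinite (X ⧸ A) := by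
    refine Infinite.of_injective (fun b : B => (QuotientGroup.mk (b : X) : X ⧸ A)) ?_
    intro b b' hbb
    have h1 : (b : X)⁻¹ * b' ∈ A := QuotientGroup.eq.1 hbb
    have h2 : (b : X)⁻¹ * b' ∈ A ⊓ B := ⟨h1, B.mul_mem (B.inv_mem b.2) b'.2⟩
    rw [hAB, Subgroup.mem_bot] at h2
    exact Subtype.ext (inv_mul_eq_one.1 h2)
  have hqB : Infinite (X ⧸ B) := by
    refine Infinite.of_injective (fun b : A => (QuotientGroup.mk (b : X) : X ⧸ B)) ?_
    intro b b' hbb
    have h1 : (b : X)⁻¹ * b' ∈ B := QuotientGroup.eq.1 hbb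
    have h2 : (b : X)⁻¹ * b' ∈ A ⊓ B := ⟨A.mul_mem (A.inv_mem b.2) b'.2, h1⟩
    rw [hAB, Subgroup.mem_bot] at h2
    exact Subtype.ext (inv_mul_eq_one.1 h2)
  have hcA : Countable (X ⧸ A) := Quotient.countable
  have hcB : Countable (X ⧸ B) := Quotient.countable
  obtain ⟨f⟩ := nonempty_equiv_of_countable (α := X ⧸ A) (β := ℕ)
  obtain ⟨g⟩ := nonempty_equiv_of_countable (α := X ⧸ B) (β := ℕ)
  have hbij : Function.Bijective (fun x : X => (f (QuotientGroup.mk x), g (QuotientGroup.mk x))) := by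
    constructor
    · intro x y hxy
      have h1 : f (QuotientGroup.mk x) = f (QuotientGroup.mk y) := congrArg Prod.fst hxy
      have h2 : g (QuotientGroup.mk x) = g (QuotientGroup.mk y) := congrArg Prod.snd hxy
      have h3 : x⁻¹ * y ∈ A := QuotientGroup.eq.1 (f.injective h1)
      have h4 : x⁻¹ * y ∈ B := QuotientGroup.eq.1 (g.injective h2)
      have h5 : x⁻¹ * y ∈ A ⊓ B := ⟨h3, h4⟩
      rw [hAB, Subgroup.mem_bot] at h5
      exact inv_mul_eq_one.1 h5
    · rintro ⟨m, n⟩
      obtain ⟨y, hy⟩ := QuotientGroup.mk_surjective (f.symm m)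
      obtain ⟨w, hw⟩ := QuotientGroup.mk_surjective (g.symm n)
      obtain ⟨a, ha, b, hb, hab⟩ := h (y⁻¹ * w)
      refine ⟨y * a, ?_⟩
      have h1 : (QuotientGroup.mk (y * a) : X ⧸ A) = QuotientGroup.mk y := by
        rw [QuotientGroup.mk_mul_of_mem _ ha]
      have h2 : (QuotientGroup.mk (y * a) : X ⧸ B) = QuotientGroup.mk w := by
        rw [QuotientGroup.eq]
        have : (y * a)⁻¹ * w = b := by
          calc (y * a)⁻¹ * w = a⁻¹ * (y⁻¹ * w) := by group
            _ = b := by rw [← hab]; group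
        rw [this]
        exact hb
      change (f (QuotientGroup.mk (y * a)), g (QuotientGroup.mk (y * a))) = (m, n)
      rw [h1, h2, hy, hw]
      simp
  let e : X ≃ ℕ × ℕ := Equiv.ofBijective _ hbij
  have hrel : ∀ u w : X, Rook (e u) (e w) ↔ (u⁻¹ * w ∈ A ∨ u⁻¹ * w ∈ B) := by
    intro u w
    rw [← QuotientGroup.eq (s := A), ← QuotientGroup.eq (s := B)]
    change (f (QuotientGroup.mk u) = f (QuotientGroup.mk w) ∨
      g (QuotientGroup.mk u) = g (QuotientGroup.mk w)) ↔ _
    rw [f.injective.eq_iff, g.injective.eq_iff]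
  refine rook_not_two_trans (hX.two_trans _ (transReg e) ?_ ?_ rook_isPreprimitive)
  · intro ω ω'
    refine ⟨e.symm ω' * (e.symm ω)⁻¹, ?_, ?_⟩
    · change transReg e _ ω = ω'
      rw [transReg_apply]
      simp
    · intro x hx
      rw [transReg_apply] at hx
      rw [← hx]
      simp
  · intro x p q
    rw [transReg_apply, transReg_apply]
    obtain ⟨u, rfl⟩ := e.surjective p
    obtain ⟨w, rfl⟩ := e.surjective q
    rw [Equiv.symm_apply_apply, Equiv.symm_apply_apply, hrel, hrel]
    have : (x * u)⁻¹ * (x * w) = u⁻¹ * w := by group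
    rw [this]

end Pool.Agent.MP_291637_al
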