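import Pool.Agent.Lib.MP_291637_al_BGroups.Torsion
import Pool.Agent.Lib.MP_291637_al_BGroups.Cover
import Pool.Agent.Lib.MP_291637_al_BGroups.Dagger

set_option autoImplicit false

open scoped Pointwise

namespace Pool.Agent.MP_291637_al

variable {X : Type} [Group X]

variable (X) in
/-- The structural condition: `X` has a finite normal subgroup `F`, a normal subgroup `I ≥ F` of
finite index with `I/F` abelian, and an element `k` with `1 ≠ k² ∈ F` which inverts `I/F`. -/
def IsTwistedDihedral : Prop :=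
  ∃ (F I : Subgroup X) (k : X), F.Normal ∧ Finite F ∧ F ≤ I ∧ I.Normal ∧ I.FiniteIndex ∧
    (∀ x ∈ I, ∀ y ∈ I, x * y * x⁻¹ * y⁻¹ ∈ F) ∧ k * k ≠ 1 ∧ k * k ∈ F ∧
    ∀ x ∈ I, k * x * k⁻¹ * x ∈ F

/-- Elements of `K` inverted by `k` modulo `F`. -/
def invSub (K F : Subgroup X) (hKn : K.Normal) (hFn : F.Normal)
    (hcomm : ∀ x ∈ K, ∀ y ∈ K, x * y * x⁻¹ * y⁻¹ ∈ F) (k : X) : Subgroup X :=
  have hcomm' : ∀ a, ∀ x ∈ K, ∀ y ∈ K, ∀ b, a * (x * y) * b ∈ F → a * (y * x) * b ∈ F := by
    intro a x hx y hy b h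
    have h5 : b⁻¹ * (x * y)⁻¹ * (y * x) * b ∈ F := by
      have h7 := hcomm y⁻¹ (K.inv_mem hy) x⁻¹ (K.inv_mem hx)
      have h8 := hFn.conj_mem _ h7 b⁻¹
      have h9 : b⁻¹ * (y⁻¹ * x⁻¹ * y⁻¹⁻¹ * x⁻¹⁻¹) * b⁻¹⁻¹ =
        b⁻¹ * (x * y)⁻¹ * (y * x) * b := by group
      rwa [h9] at h8
    have h6 := F.mul_mem h h5
    have h7 : a * (x * y) * b * (b⁻¹ * (x * y)⁻¹ * (y * x) * b) = a * (y * x) * b := by group
    rwa [h7] at h6
  { carrier := {w | w ∈ K ∧ k⁻¹ * w * k * w ∈ F}
    one_mem' := ⟨K.one_mem, by simp⟩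
    mul_mem' := by
      rintro x y ⟨hx, hx'⟩ ⟨hy, hy'⟩
      refine ⟨K.mul_mem hx hy, ?_⟩
      have hky : k⁻¹ * y * k ∈ K := by
        have := hKn.conj_mem y hy k⁻¹
        simpa using this
      have h4 : (k⁻¹ * x * k) * (x * (k⁻¹ * y * k)) * y ∈ F := by
        have := F.mul_mem hx' hy'
        have h5 : k⁻¹ * x * k * x * (k⁻¹ * y * k * y) =
          (k⁻¹ * x * k) * (x * (k⁻¹ * y * k)) * y := by group
        rwa [h5] at this
      have h6 := hcomm' _ _ hx _ hky _ h4
      have h7 : (k⁻¹ * x * k) * ((k⁻¹ * y * k) * x) * y = k⁻¹ * (x * y) * k * (x * y) := by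
        group
      rwa [h7] at h6
    inv_mem' := by
      rintro x ⟨hx, hx'⟩
      refine ⟨K.inv_mem hx, ?_⟩
      have hkx : k⁻¹ * x * k ∈ K := by
        have := hKn.conj_mem x hx k⁻¹
        simpa using this
      have h4 : 1 * ((k⁻¹ * x * k) * x) * 1 ∈ F := by simpa using hx'
      have h5 := hcomm' _ _ hkx _ hx _ h4
      have h6 := F.inv_mem h5
      have h7 : (1 * (x * (k⁻¹ * x * k)) * 1)⁻¹ = k⁻¹ * x⁻¹ * k * x⁻¹ := by group
      rwa [h7] at h6 }

theorem mem_invSub {K F : Subgroup X} {hKn : K.Normal} {hFn : F.Normal}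
    {hcomm : ∀ x ∈ K, ∀ y ∈ K, x * y * x⁻¹ * y⁻¹ ∈ F} {k w : X} :
    w ∈ invSub K F hKn hFn hcomm k ↔ w ∈ K ∧ k⁻¹ * w * k * w ∈ F := Iff.rfl

/-- Reformulation of the failure of (†) by squares. -/
theorem not_dagger_iff : ¬ Dagger X ↔ ∃ (P : Finset (X × X)) (Z : Finset X),
    (∀ p ∈ P, p.2 ≠ 1) ∧ ∀ z, z ∉ Z → ∃ p ∈ P, p.1 * z * (p.1 * z) = p.2 := by
  classical
  constructor
  · intro h
    unfold Dagger at h
    push Not at h
    obtain ⟨P, Z, hP, hU⟩ := h
    refine ⟨P.image (fun p => (p.1, p.1 * p.2⁻¹)), Z.image (fun z => z⁻¹), ?_, ?_⟩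
    · intro p hp
      rw [Finset.mem_image] at hp
      obtain ⟨q, hq, rfl⟩ := hp
      intro h
      exact hP q hq (mul_inv_eq_one.1 h)
    · intro z hz
      have h1 : z⁻¹ ∈ (⋃ p ∈ P, TSet p.1 p.2) ∪ (Z : Set X) := by
        rw [hU]; exact Set.mem_univ _
      rcases h1 with h1 | h1
      · rw [Set.mem_iUnion₂] at h1
        obtain ⟨p, hp, hpz⟩ := h1
        refine ⟨(p.1, p.1 * p.2⁻¹), Finset.mem_image_of_mem _ hp, ?_⟩
        have h2 : p.1 * z⁻¹⁻¹ = z⁻¹ * p.2⁻¹ := hpz
        rw [inv_inv] at h2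
        change p.1 * z * (p.1 * z) = p.1 * p.2⁻¹
        calc p.1 * z * (p.1 * z) = p.1 * z * (z⁻¹ * p.2⁻¹) := by rw [h2]
          _ = p.1 * p.2⁻¹ := by group
      · exfalso
        apply hz
        exact Finset.mem_image.2 ⟨z⁻¹, Finset.mem_coe.1 h1, inv_inv z⟩
  · rintro ⟨P, Z, hP, hcov⟩ hX
    obtain ⟨z, hz, hz'⟩ := hX.exists_notMem (P.image (fun p => (p.1, p.2⁻¹ * p.1)))
      (Z.image (fun z => z⁻¹)) (by
        intro p hp
        rw [Finset.mem_image] at hp
        obtain ⟨q, hq, rfl⟩ := hp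
        intro h
        have h' : q.1 = q.2⁻¹ * q.1 := h
        have : q.2⁻¹ = 1 := by
          have := mul_eq_right.1 h'.symm
          exact this
        exact hP q hq (inv_eq_one.1 this))
    obtain ⟨p, hp, hpz⟩ := hcov z⁻¹ (by
      intro h
      apply hz
      exact Finset.mem_image.2 ⟨z⁻¹, h, inv_inv z⟩)
    apply hz' (p.1, p.2⁻¹ * p.1) (Finset.mem_image_of_mem _ hp)
    change p.1 * z⁻¹ = z * (p.2⁻¹ * p.1)⁻¹
    rw [← hpz]
    group

theorem IsTwistedDihedral.of_cover [Infinite X] (P : Finset (X × X)) (Z : Finset X)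
    (hP : ∀ p ∈ P, p.2 ≠ 1)
    (hcov : ∀ z, z ∉ Z → ∃ p ∈ P, p.1 * z * (p.1 * z) = p.2) : IsTwistedDihedral X := by
  classical
  obtain ⟨hK, M, hM⟩ := fc_of_cover P Z hcov
  set K := fc X with hKdef
  have hKn : K.Normal := fc_normal
  -- commutator subgroup of `K` is finite
  have h1 : ∀ x : K, (Subgroup.centralizer {x}).FiniteIndex ∧
      (Subgroup.centralizer {x}).index ≤ M := by
    intro x
    have h2 := hM x x.2
    have h3 : (Subgroup.centralizer {x}) = (Subgroup.centralizer {(x : X)}).subgroupOf K := by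
      ext y
      rw [Subgroup.mem_centralizer_singleton_iff, Subgroup.mem_subgroupOf,
        Subgroup.mem_centralizer_singleton_iff, Subtype.ext_iff]
      rfl
    have := h2.1
    rw [h3]
    refine ⟨inferInstance, ?_⟩
    change (Subgroup.centralizer {(x : X)}).relIndex K ≤ M
    refine le_trans ?_ h2.2
    have h4 := Subgroup.relIndex_le_of_le_right (H := Subgroup.centralizer {(x : X)})
      (K := K) (L := ⊤) le_top (by
        rw [Subgroup.relIndex_top_right]
        exact h2.1.index_ne_zero)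
    rwa [Subgroup.relIndex_top_right] at h4
  have h2 : Finite (commutatorSet K) := finite_commutatorSet_of_bounded M h1
  have h3 : Finite (_root_.commutator K) := inferInstance
  set F : Subgroup X := ⁅K, K⁆ with hF
  have hFn : F.Normal := Subgroup.commutator_normal K K
  have hFfin : Finite F := by
    have h4 : (_root_.commutator K).map K.subtype = F := Subgroup.map_subtype_commutator K
    rw [← h4]
    have h5 : (((_root_.commutator K).map K.subtype : Subgroup X) : Set X).Finite := by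
      rw [Subgroup.coe_map]
      exact Set.Finite.image _ (Set.toFinite _)
    exact h5.to_subtype
  have hFK : F ≤ K := by
    rw [hF, Subgroup.commutator_le]
    intro a ha b hb
    exact K.mul_mem (K.mul_mem (K.mul_mem ha hb) (K.inv_mem ha)) (K.inv_mem hb)
  have hcomm : ∀ x ∈ K, ∀ y ∈ K, x * y * x⁻¹ * y⁻¹ ∈ F := by
    intro x hx y hy
    exact Subgroup.commutator_mem_commutator hx hy
  let I : X → Subgroup X := invSub K F hKn hFn hcomm
  -- the cover
  let Sol : X × X → X → Prop := fun p z => z ∈ K ∧ p.1 * z * (p.1 * z) = p.2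
  let z₀ : X × X → X := fun p => if h : ∃ z, Sol p z then h.choose else 1
  have hz₀ : ∀ p, (∃ z, Sol p z) → Sol p (z₀ p) := by
    intro p h
    change Sol p (if h : ∃ z, Sol p z then h.choose else 1)
    rw [dif_pos h]
    exact h.choose_spec
  have : Finite (X ⧸ K) := inferInstance
  have : Fintype (X ⧸ K) := Fintype.ofFinite _
  let T : Finset X := Finset.univ.image (fun q : X ⧸ K => (Quotient.out q : X))
  have hT : ∀ x : X, ∃ t ∈ T, t⁻¹ * x ∈ K := by
    intro x
    refine ⟨Quotient.out (QuotientGroup.mk x : X ⧸ K),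
      Finset.mem_image_of_mem _ (Finset.mem_univ _), ?_⟩
    rw [← QuotientGroup.eq]
    exact Quotient.out_eq _
  let I₁ : Finset (X × (X × X)) := (T ×ˢ P).filter (fun t => ∃ z, Sol t.2 z)
  let I₂ : Finset X := (T ×ˢ Z).image (fun q => q.1 * q.2)
  let s : Finset ((X × (X × X)) ⊕ X) := I₁.disjSum I₂
  let H : ((X × (X × X)) ⊕ X) → Subgroup X :=
    Sum.elim (fun t => I (t.2.1 * z₀ t.2)) (fun _ => ⊥)
  let g : ((X × (X × X)) ⊕ X) → X := Sum.elim (fun t => t.1 * z₀ t.2) id
  have hc : ⋃ i ∈ s, g i • (H i : Set X) = Set.univ := by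
    rw [Set.eq_univ_iff_forall]
    intro x
    rw [Set.mem_iUnion₂]
    obtain ⟨t, ht, hx⟩ := hT x
    set z := t⁻¹ * x with hz
    have hxz : x = t * z := by rw [hz]; group
    by_cases hzZ : z ∈ Z
    · refine ⟨Sum.inr x, ?_, ?_⟩
      · refine Finset.inr_mem_disjSum.2 (Finset.mem_image.2 ⟨(t, z), ?_, hxz.symm⟩)
        exact Finset.mem_product.2 ⟨ht, hzZ⟩
      · change x ∈ x • ((⊥ : Subgroup X) : Set X)
        rw [Set.mem_smul_set]
        exact ⟨1, Subgroup.one_mem _, by simp⟩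
    · obtain ⟨p, hp, hpz⟩ := hcov z hzZ
      have hex : ∃ z, Sol p z := ⟨z, hx, hpz⟩
      have hS := hz₀ p hex
      refine ⟨Sum.inl (t, p), ?_, ?_⟩
      · refine Finset.inl_mem_disjSum.2 (Finset.mem_filter.2 ⟨?_, hex⟩)
        exact Finset.mem_product.2 ⟨ht, hp⟩
      · change x ∈ (t * z₀ p) • ((I (p.1 * z₀ p) : Subgroup X) : Set X)
        rw [Set.mem_smul_set]
        refine ⟨(z₀ p)⁻¹ * z, ⟨?_, ?_⟩, ?_⟩
        · exact K.mul_mem (K.inv_mem hS.1) hx
        · have h4 : p.1 * z₀ p * (p.1 * z₀ p) = p.1 * z * (p.1 * z) := hS.2.trans hpz.symm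
          have h5 : (p.1 * z₀ p)⁻¹ * ((z₀ p)⁻¹ * z) * (p.1 * z₀ p) * ((z₀ p)⁻¹ * z) = 1 := by
            calc (p.1 * z₀ p)⁻¹ * ((z₀ p)⁻¹ * z) * (p.1 * z₀ p) * ((z₀ p)⁻¹ * z)
                = (p.1 * z₀ p * (p.1 * z₀ p))⁻¹ * (p.1 * z * (p.1 * z)) := by group
              _ = 1 := by rw [h4]; group
          rw [h5]
          exact F.one_mem
        · rw [hxz]
          simp [mul_assoc]
  obtain ⟨i, his, hfi, -⟩ := Subgroup.exists_index_le_card_of_leftCoset_cover hc
  rcases i with t | x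
  · have ht := Finset.mem_filter.1 (Finset.inl_mem_disjSum.1 his)
    have hS := hz₀ _ ht.2
    have hp := hP _ (Finset.mem_product.1 ht.1).2
    set k := t.2.1 * z₀ t.2 with hk
    have hI : (I k).FiniteIndex := hfi
    have hkk : k * k = t.2.2 := hS.2
    have hkk1 : k * k ≠ 1 := by rw [hkk]; exact hp
    clear_value k
    set c := k * k with hc
    -- the centralizer of `c` has finite index
    have hψ : ∀ x ∈ I k, c⁻¹ * x * c * x⁻¹ ∈ F := by
      intro x hx
      have h4 : k⁻¹ * x * k * x ∈ F := hx.2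
      have h5 := hFn.conj_mem _ h4 k⁻¹
      have h6 := hFn.conj_mem _ (F.inv_mem h4) x
      have h7 := F.mul_mem h5 h6
      have h8 : k⁻¹ * (k⁻¹ * x * k * x) * k⁻¹⁻¹ * (x * (k⁻¹ * x * k * x)⁻¹ * x⁻¹) =
          c⁻¹ * x * c * x⁻¹ := by
        rw [hc]; group
      rwa [h8] at h7
    have hcfi : (Subgroup.centralizer {c}).FiniteIndex := by
      set H₁ := Subgroup.centralizer {c} ⊓ I k with hH₁
      have hq : Finite (I k ⧸ H₁.subgroupOf (I k)) := by
        let φ : I k ⧸ H₁.subgroupOf (I k) → F := fun q =>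
          ⟨c⁻¹ * (Quotient.out q : I k) * c * ((Quotient.out q : I k) : X)⁻¹,
            hψ _ (Quotient.out q : I k).2⟩
        refine Finite.of_injective φ ?_
        intro q r hqr
        have h4 : c⁻¹ * ((Quotient.out q : I k) : X) * c * ((Quotient.out q : I k) : X)⁻¹ =
          c⁻¹ * ((Quotient.out r : I k) : X) * c * ((Quotient.out r : I k) : X)⁻¹ :=
          congrArg Subtype.val hqr
        have h5 : (Quotient.out q : I k)⁻¹ * (Quotient.out r : I k) ∈ H₁.subgroupOf (I k) := by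
          rw [Subgroup.mem_subgroupOf]
          refine ⟨?_, ((Quotient.out q : I k)⁻¹ * (Quotient.out r : I k)).2⟩
          refine Subgroup.mem_centralizer_singleton_iff.2 ?_
          change ((Quotient.out q : I k) : X)⁻¹ * ((Quotient.out r : I k) : X) * c =
            c * (((Quotient.out q : I k) : X)⁻¹ * ((Quotient.out r : I k) : X))
          set x := ((Quotient.out q : I k) : X)
          set y := ((Quotient.out r : I k) : X)
          calc x⁻¹ * y * c = x⁻¹ * c * (c⁻¹ * y * c * y⁻¹) * y := by group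
            _ = x⁻¹ * c * (c⁻¹ * x * c * x⁻¹) * y := by rw [h4]
            _ = c * (x⁻¹ * y) := by group
        have h6 : (QuotientGroup.mk (Quotient.out q) : I k ⧸ H₁.subgroupOf (I k)) =
          QuotientGroup.mk (Quotient.out r) := QuotientGroup.eq.2 h5
        have h7 : ∀ q, (QuotientGroup.mk (Quotient.out q) : I k ⧸ H₁.subgroupOf (I k)) = q :=
          fun q => Quotient.out_eq q
        rwa [h7, h7] at h6
      have h4 : H₁.FiniteIndex := by
        rw [Subgroup.finiteIndex_iff, ← Subgroup.relIndex_mul_index (H := H₁) (K := I k)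
          inf_le_right]
        refine mul_ne_zero ?_ hI.index_ne_zero
        have h5 : (H₁.subgroupOf (I k)).FiniteIndex := Subgroup.finiteIndex_of_finite_quotient
        exact h5.index_ne_zero
      exact Subgroup.finiteIndex_of_le (H := H₁) inf_le_left
    have hcK : c ∈ K := ⟨_, hcfi, le_rfl⟩
    -- `c` has finite order
    have hcfo : IsOfFinOrder c := by
      obtain ⟨m, hm, -, hmem⟩ := Subgroup.exists_pow_mem_of_index_ne_zero hI.index_ne_zero c
      have h4 : k⁻¹ * c ^ m * k * c ^ m ∈ F := hmem.2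
      have h5 : k⁻¹ * c ^ m * k * c ^ m = c ^ (m + m) := by
        have h6 : Commute k (c ^ m) := by
          apply Commute.pow_right
          rw [hc]
          exact (Commute.refl k).mul_right (Commute.refl k)
        rw [mul_assoc k⁻¹, ← h6.eq, pow_add]
        group
      rw [h5] at h4
      have h6 : IsOfFinOrder (⟨c ^ (m + m), h4⟩ : F) := isOfFinOrder_of_finite _
      have h7 : IsOfFinOrder (c ^ (m + m)) := Submonoid.isOfFinOrder_coe.2 h6
      exact (isOfFinOrder_pow (n := m + m)).1 h7 |>.resolve_right (by omega)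
    have hNfin : Finite (Subgroup.normalClosure {c}) :=
      finite_normalClosure K h3 c hcK hcfi hcfo
    set F' := F ⊔ Subgroup.normalClosure {c} with hF'
    have hF'n : F'.Normal := inferInstance
    have hFF' : F ≤ F' := le_sup_left
    have hcF' : c ∈ F' := (le_sup_right : _ ≤ F') (Subgroup.subset_normalClosure rfl)
    have hF'K : F' ≤ K := by
      refine sup_le hFK ?_
      exact Subgroup.normalClosure_le_normal (by simpa using hcK)
    have hF'fin : Finite F' := by
      have h4 : ((F' : Subgroup X) : Set X) ⊆ (F : Set X) * (Subgroup.normalClosure {c} : Set X) := by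
        rw [hF', Subgroup.mul_normal]
      exact ((Set.Finite.mul (Set.toFinite _) (Set.toFinite _)).subset h4).to_subtype
    have hcomm2 : ∀ x ∈ K, ∀ y ∈ K, x * y * x⁻¹ * y⁻¹ ∈ F' :=
      fun x hx y hy => hFF' (hcomm x hx y hy)
    set J := invSub K F' hKn hF'n hcomm2 k with hJ
    have hIJ : I k ≤ J := fun x hx => ⟨hx.1, hFF' hx.2⟩
    have hF'J : F' ≤ J := by
      intro f hf
      refine ⟨hF'K hf, F'.mul_mem ?_ hf⟩
      have := hF'n.conj_mem f hf k⁻¹
      simpa using this
    have hJfi : J.FiniteIndex := Subgroup.finiteIndex_of_le hIJ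
    have hle : F' ⊔ J.normalCore ≤ J := sup_le hF'J (Subgroup.normalCore_le _)
    refine ⟨F', F' ⊔ J.normalCore, k⁻¹, hF'n, hF'fin, le_sup_left, inferInstance, ?_, ?_, ?_, ?_,
      ?_⟩
    · exact Subgroup.finiteIndex_of_le (H := J.normalCore) le_sup_right
    · intro x hx y hy
      exact hcomm2 x (hle hx).1 y (hle hy).1
    · intro h
      apply hkk1
      have h5 : (k * k)⁻¹ = k⁻¹ * k⁻¹ := by group
      rw [hc, ← inv_inj, h5, h, inv_one]
    · have h5 : (k * k)⁻¹ = k⁻¹ * k⁻¹ := by group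
      rw [← h5]
      exact F'.inv_mem hcF'
    · intro x hx
      rw [inv_inv]
      exact (hle hx).2
  · exfalso
    have h1 : (⊥ : Subgroup X).FiniteIndex := hfi
    have : Finite (X ⧸ (⊥ : Subgroup X)) := inferInstance
    have : Finite X := Finite.of_equiv _ (QuotientGroup.quotientBot (G := X)).toEquiv
    exact not_finite X

end Pool.Agent.MP_291637_al
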