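import Pool.Agent.Lib.MP_291637_al_BGroups.BFC

set_option autoImplicit false

namespace Pool.Agent.MP_291637_al

/-- A finite set of torsion elements of an abelian group generates a finite subgroup. -/
theorem finite_closure_torsion {A : Type} [CommGroup A] {T : Set A} (hT : T.Finite)
    (h : ∀ t ∈ T, IsOfFinOrder t) : Finite (Subgroup.closure T) := by
  have : Finite T := hT.to_subtype
  have hfg : Group.FG (Subgroup.closure T) := Group.closure_finite_fg T
  apply CommGroup.finite_of_fg_isMulTorsion
  intro g
  have hle : Subgroup.closure T ≤ CommGroup.torsion A := by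
    rw [Subgroup.closure_le]
    intro t ht
    exact (CommGroup.mem_torsion t).2 (h t ht)
  have h1 := (CommGroup.mem_torsion _).1 (hle g.2)
  exact Submonoid.isOfFinOrder_coe.1 h1

theorem finite_of_ker_range {G H : Type} [Group G] [Group H] (f : G →* H) (h1 : Finite f.ker)
    (h2 : Finite f.range) : Finite G := by
  rw [Subgroup.finite_iff_finite_and_finiteIndex f.ker]
  exact ⟨h1, inferInstance⟩

/-- The same in groups with finite commutator subgroup. -/
theorem finite_closure_torsion' {K : Type} [Group K] (hK : Finite (_root_.commutator K))
    {S : Set K} (hS : S.Finite) (h : ∀ s ∈ S, IsOfFinOrder s) : Finite (Subgroup.closure S) := by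
  let f : Subgroup.closure S →* Abelianization K :=
    Abelianization.of.comp (Subgroup.closure S).subtype
  refine finite_of_ker_range f ?_ ?_
  · have hinj : Function.Injective (fun x : f.ker => (⟨((x : Subgroup.closure S) : K), by
        have h1 : f x = 1 := x.2
        have h2 : Abelianization.of ((x : Subgroup.closure S) : K) = 1 := h1
        rw [← Abelianization.ker_of, MonoidHom.mem_ker]
        exact h2⟩ : _root_.commutator K)) := by
      intro x y hxy
      have := congrArg Subtype.val hxy
      exact Subtype.ext (Subtype.ext this)
    exact Finite.of_injective _ hinj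
  · have h1 : f.range = Subgroup.closure (Abelianization.of '' S) := by
      rw [MonoidHom.range_comp, Subgroup.range_subtype, MonoidHom.map_closure]
    rw [h1]
    refine finite_closure_torsion (hS.image _) ?_
    rintro _ ⟨s, hs, rfl⟩
    exact MonoidHom.isOfFinOrder Abelianization.of (h s hs)

/-- The conjugacy class of an element whose centralizer has finite index is finite. -/
theorem finite_conjugates {G : Type} [Group G] (a : G)
    (h : (Subgroup.centralizer {a}).FiniteIndex) : {b | ∃ g, g * a * g⁻¹ = b}.Finite := by
  have : Finite (G ⧸ Subgroup.centralizer {a}) := inferInstance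
  refine (Set.finite_range (fun j : G ⧸ Subgroup.centralizer {a} =>
    Quotient.out j * a * (Quotient.out j)⁻¹)).subset ?_
  rintro _ ⟨g, rfl⟩
  exact ⟨QuotientGroup.mk g, conj_out a g⟩

/-- The normal closure of a torsion element of finite class inside a normal subgroup with finite
commutator subgroup is finite. -/
theorem finite_normalClosure {X : Type} [Group X] (K : Subgroup X) [hKn : K.Normal]
    (hK : Finite (_root_.commutator K)) (c : X) (hc : c ∈ K)
    (hfi : (Subgroup.centralizer {c}).FiniteIndex) (hfo : IsOfFinOrder c) :
    Finite (Subgroup.normalClosure {c}) := by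
  let S : Set K := {s | ∃ g, g * c * g⁻¹ = (s : X)}
  have hS : S.Finite := by
    have h1 := finite_conjugates c hfi
    exact Set.Finite.preimage (f := fun s : K => (s : X))
      (Set.injOn_of_injective Subtype.val_injective) h1
  have h2 : Finite (Subgroup.closure S) := by
    refine finite_closure_torsion' hK hS ?_
    rintro s ⟨g, hg⟩
    rw [← Submonoid.isOfFinOrder_coe]
    change IsOfFinOrder (s : X)
    rw [← hg]
    exact MonoidHom.isOfFinOrder (MulAut.conj g).toMonoidHom hfo
  have h3 : Subgroup.normalClosure {c} ≤ (Subgroup.closure S).map K.subtype := by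
    rw [Subgroup.normalClosure, Subgroup.closure_le]
    intro x hx
    rw [Group.mem_conjugatesOfSet_iff] at hx
    obtain ⟨a, ha, hax⟩ := hx
    rw [Set.mem_singleton_iff] at ha
    subst ha
    rw [isConj_iff] at hax
    obtain ⟨g, hg⟩ := hax
    have hxK : x ∈ K := by
      rw [← hg]
      exact hKn.conj_mem _ hc g
    exact ⟨⟨x, hxK⟩, Subgroup.subset_closure ⟨g, hg⟩, rfl⟩
  have h4 : (((Subgroup.closure S).map K.subtype : Subgroup X) : Set X).Finite := by
    rw [Subgroup.coe_map]
    exact Set.Finite.image _ (Set.toFinite _)
  exact (h4.subset h3).to_subtype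

end Pool.Agent.MP_291637_al
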